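import Pool.Agent.Helper36.CV.StmtsG

/-!
# K11: no exact distance 2 (limits along an ultrafilter)
-/

set_option autoImplicit false

namespace Pool.Agent.Helper36.CV

open Filter Topology

section

variable {U : Ultrafilter ℕ}

theorem k11_lim {f : ℕ → ℝ} {K : ℝ} (h : ∀ᶠ n in (U : Filter ℕ), |f n| ≤ K) :
    ∃ c, Tendsto f U (𝓝 c) := by
  have h1 : ((U.map f : Ultrafilter ℝ) : Filter ℝ) ≤ 𝓟 (Set.Icc (-K) K) := by
    rw [le_principal_iff, Ultrafilter.mem_coe, Ultrafilter.mem_map]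
    exact h.mono fun n hn => abs_le.1 hn
  obtain ⟨c, _, hc⟩ := isCompact_Icc.ultrafilter_le_nhds _ h1
  exact ⟨c, hc⟩

theorem k11_lim_abs {f : ℕ → ℝ} {g : ℕ → ℝ} {c K : ℝ} (hf : Tendsto f U (𝓝 c))
    (hg : Tendsto g U (𝓝 K)) (h : ∀ᶠ n in (U : Filter ℕ), |f n| ≤ g n) : |c| ≤ K :=
  le_of_tendsto_of_tendsto hf.abs hg h

theorem k11_squeeze {f : ℕ → ℝ} {g : ℕ → ℝ} {c : ℝ} (hg : Tendsto g U (𝓝 0))
    (h : ∀ᶠ n in (U : Filter ℕ), |f n - c| ≤ g n) : Tendsto f U (𝓝 c) := by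
  have h1 : Tendsto (fun n => f n - c) U (𝓝 0) := squeeze_zero_norm' h hg
  have h2 := h1.add_const c
  rw [zero_add] at h2
  refine h2.congr fun n => ?_
  ring

variable {l : ℕ → ℝ} (hl : Tendsto l U atTop)

include hl

theorem k11_inv (C : ℝ) : Tendsto (fun n => C / l n) U (𝓝 0) := hl.const_div_atTop C

theorem k11_pos : ∀ᶠ n in (U : Filter ℕ), 0 < l n := hl.eventually_gt_atTop 0

/-- states -/
def k11_St (U : Ultrafilter ℕ) (l x : ℕ → ℝ) (k : ℕ) (s : ℝ) : Prop :=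
  ∀ᶠ n in (U : Filter ℕ), |X (l n) k (x n)| ≤ 1 ∧ |X (l n) (k + 1) (x n) - s * l n / 2| ≤ 3 ∧
    |X (l n) (k + 2) (x n)| ≤ 1

theorem k11_big {P : ℕ → ℝ} {s : ℝ} (h : ∀ᶠ n in (U : Filter ℕ), |P n - s * l n / 2| ≤ 3) :
    Tendsto (fun n => P n / l n) U (𝓝 (s / 2)) := by
  refine k11_squeeze (k11_inv hl 3) ?_
  filter_upwards [h, k11_pos hl] with n h1 h2
  have h3 : P n / l n - s / 2 = (P n - s * l n / 2) / l n := by
    field_simp
  rw [h3, abs_div, abs_of_pos h2]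
  exact div_le_div_of_nonneg_right h1 h2.le

theorem k11_step (hK0 : ST_K0) {x : ℕ → ℝ} (hx : ∀ n, x n ∈ Cs (l n)) {k : ℕ} {s : ℝ}
    (hs : s = 1 ∨ s = -1) (hSt : k11_St U l x k s) {u : ℝ}
    (hu : Tendsto (fun n => X (l n) k (x n)) U (𝓝 u)) :
    (∃ r w : ℝ, (r = 1 ∨ r = -1) ∧ |w| ≤ 1 / 2 ∧ k11_St U l x (k + 2) (r * s) ∧
      Tendsto (fun n => X (l n) (k + 2) (x n)) U (𝓝 (r / 2)) ∧
      Tendsto (fun n => X (l n) (k + 4) (x n)) U (𝓝 w) ∧
      Tendsto (fun n => (X (l n) (k + 2) (x n) - r / 2) * (2 * l n)) U (𝓝 (r * s * w + s * u))) ∨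
    (k11_St U l x (k + 3) (-s) ∧ Tendsto (fun n => X (l n) (k + 2) (x n)) U (𝓝 0) ∧
      Tendsto (fun n => X (l n) (k + 3) (x n)) U (𝓝 0) ∧
      Tendsto (fun n => X (l n) (k + 2) (x n) * (2 * l n)) U (𝓝 (2 * s * u))) := by
  obtain ⟨C, L1, hC, hL1, hK⟩ := hK0
  have hlL := hl.eventually_ge_atTop L1
  have hs2 : s ^ 2 = 1 := by rcases hs with h | h <;> rw [h] <;> norm_num
  have hs0 : s ≠ 0 := by rcases hs with h | h <;> rw [h] <;> norm_num
  have hPl := k11_big hl (P := fun n => X (l n) (k + 1) (x n)) (s := s)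
    (hSt.mono fun n h => h.2.1)
  -- `l * (stuff of size C / l ^ 2)` tends to zero
  have hcl : Tendsto (fun n => 2 * C / l n) U (𝓝 0) := k11_inv hl (2 * C)
  have key : ∀ r : ℝ, (r = 1 ∨ r = -1) → (∀ᶠ n in (U : Filter ℕ),
      |X (l n) (k + 2) (x n) - r / 2| ≤ C / l n ∧ |X (l n) (k + 4) (x n)| ≤ 1 ∧
        |X (l n) (k + 3) (x n) - r * s * l n / 2| ≤ 3 ∧
        |X (l n) (k + 2) (x n) - r / 2 - (X (l n) (k + 4) (x n) + r * X (l n) k (x n)) /
          (4 * r * X (l n) (k + 1) (x n))| ≤ C / l n ^ 2) →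
      ∃ r w : ℝ, (r = 1 ∨ r = -1) ∧ |w| ≤ 1 / 2 ∧ k11_St U l x (k + 2) (r * s) ∧
      Tendsto (fun n => X (l n) (k + 2) (x n)) U (𝓝 (r / 2)) ∧
      Tendsto (fun n => X (l n) (k + 4) (x n)) U (𝓝 w) ∧
      Tendsto (fun n => (X (l n) (k + 2) (x n) - r / 2) * (2 * l n)) U (𝓝 (r * s * w + s * u)) := by
    intro r hr hev
    have hr2 : r ^ 2 = 1 := by rcases hr with h | h <;> rw [h] <;> norm_num
    have hr0 : r ≠ 0 := by rcases hr with h | h <;> rw [h] <;> norm_num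
    have hrs : r * s = 1 ∨ r * s = -1 := by
      rcases hr with h | h <;> rcases hs with h' | h' <;> rw [h, h'] <;> norm_num
    have hSt2 : k11_St U l x (k + 2) (r * s) := by
      filter_upwards [hSt, hev] with n h1 h2
      exact ⟨h1.2.2, h2.2.2.1, h2.2.1⟩
    obtain ⟨w, hw⟩ := k11_lim (hev.mono fun n h => h.2.1)
    have hw2 : |w| ≤ 1 / 2 := by
      have h1 : Tendsto (fun n => 1 / 2 + C / l n) U (𝓝 (1 / 2 + 0)) :=
        tendsto_const_nhds.add (k11_inv hl C)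
      rw [add_zero] at h1
      refine k11_lim_abs hw h1 ?_
      filter_upwards [hSt2, hlL] with n h2 h3
      exact ((hK (l n) h3 (x n) (hx n)).2.2 (k + 2) (r * s) hrs h2.1 h2.2.1 h2.2.2).1
    refine ⟨r, w, hr, hw2, hSt2, k11_squeeze (k11_inv hl C) (hev.mono fun n h => h.1), hw, ?_⟩
    have h1 : Tendsto (fun n => (X (l n) (k + 4) (x n) + r * X (l n) k (x n)) /
        (2 * r * (X (l n) (k + 1) (x n) / l n))) U (𝓝 ((w + r * u) / (2 * r * (s / 2)))) := by
      refine (hw.add (hu.const_mul r)).div (hPl.const_mul (2 * r)) ?_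
      have : 2 * r * (s / 2) = r * s := by ring
      rw [this]
      exact mul_ne_zero hr0 hs0
    have h2 : (w + r * u) / (2 * r * (s / 2)) = r * s * w + s * u := by
      rcases hr with h | h <;> rcases hs with h' | h' <;> rw [h, h'] <;> ring
    rw [h2] at h1
    have h3 : Tendsto (fun n => (X (l n) (k + 2) (x n) - r / 2) * (2 * l n) -
        (X (l n) (k + 4) (x n) + r * X (l n) k (x n)) /
        (2 * r * (X (l n) (k + 1) (x n) / l n))) U (𝓝 0) := by
      refine squeeze_zero_norm' ?_ hcl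
      filter_upwards [hev, k11_pos hl] with n h4 h5
      have h6 : (X (l n) (k + 2) (x n) - r / 2) * (2 * l n) -
        (X (l n) (k + 4) (x n) + r * X (l n) k (x n)) /
        (2 * r * (X (l n) (k + 1) (x n) / l n)) = (X (l n) (k + 2) (x n) - r / 2 -
          (X (l n) (k + 4) (x n) + r * X (l n) k (x n)) /
          (4 * r * X (l n) (k + 1) (x n))) * (2 * l n) := by
        field_simp
        ring
      rw [h6, Real.norm_eq_abs, abs_mul, abs_of_pos (by positivity : (0 : ℝ) < 2 * l n)]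
      calc _ ≤ C / l n ^ 2 * (2 * l n) := mul_le_mul_of_nonneg_right h4.2.2.2 (by positivity)
        _ = 2 * C / l n := by field_simp
    have h4 := h3.add h1
    rw [zero_add] at h4
    refine h4.congr fun n => ?_
    ring
  -- the alternative
  have hall : ∀ᶠ n in (U : Filter ℕ), ((|X (l n) (k + 2) (x n) - 1 / 2| ≤ C / l n ∧ |X (l n) (k + 4) (x n)| ≤ 1 ∧
        |X (l n) (k + 3) (x n) - 1 * s * l n / 2| ≤ 3 ∧
        |X (l n) (k + 2) (x n) - 1 / 2 - (X (l n) (k + 4) (x n) + 1 * X (l n) k (x n)) /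
          (4 * 1 * X (l n) (k + 1) (x n))| ≤ C / l n ^ 2) ∨
      (|X (l n) (k + 2) (x n) - (-1) / 2| ≤ C / l n ∧ |X (l n) (k + 4) (x n)| ≤ 1 ∧
        |X (l n) (k + 3) (x n) - (-1) * s * l n / 2| ≤ 3 ∧
        |X (l n) (k + 2) (x n) - (-1) / 2 - (X (l n) (k + 4) (x n) + (-1) * X (l n) k (x n)) /
          (4 * (-1) * X (l n) (k + 1) (x n))| ≤ C / l n ^ 2)) ∨
      (|X (l n) (k + 2) (x n) - X (l n) k (x n) / (2 * X (l n) (k + 1) (x n))| ≤ C / l n ^ 2 ∧
        |X (l n) (k + 3) (x n)| ≤ C / l n ∧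
        |X (l n) (k + 4) (x n) + s * l n / 2| ≤ 3 ∧ |X (l n) (k + 5) (x n)| ≤ 1) := by
    filter_upwards [hSt, hlL] with n h2 h3
    rcases ((hK (l n) h3 (x n) (hx n)).2.2 k s hs h2.1 h2.2.1 h2.2.2).2 with ⟨r, hr, h4⟩ | h4
    · left
      rcases hr with rfl | rfl
      · exact Or.inl h4
      · exact Or.inr h4
    · exact Or.inr h4
  rw [Ultrafilter.eventually_or, Ultrafilter.eventually_or] at hall
  rcases hall with (hall | hall) | hall
  · exact Or.inl (key 1 (Or.inl rfl) hall)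
  · exact Or.inl (key (-1) (Or.inr rfl) hall)
  · right
    have hy : Tendsto (fun n => X (l n) (k + 3) (x n)) U (𝓝 0) := by
      refine k11_squeeze (k11_inv hl C) (hall.mono fun n h => ?_)
      rw [sub_zero]
      exact h.2.1
    have h1 : Tendsto (fun n => X (l n) k (x n) / (X (l n) (k + 1) (x n) / l n)) U
        (𝓝 (u / (s / 2))) := hu.div hPl (div_ne_zero hs0 two_ne_zero)
    have h2 : u / (s / 2) = 2 * s * u := by
      rcases hs with h' | h' <;> rw [h'] <;> ring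
    rw [h2] at h1
    have h3 : Tendsto (fun n => X (l n) (k + 2) (x n) * (2 * l n) -
        X (l n) k (x n) / (X (l n) (k + 1) (x n) / l n)) U (𝓝 0) := by
      refine squeeze_zero_norm' ?_ hcl
      filter_upwards [hall, k11_pos hl] with n h4 h5
      have h6 : X (l n) (k + 2) (x n) * (2 * l n) -
        X (l n) k (x n) / (X (l n) (k + 1) (x n) / l n) = (X (l n) (k + 2) (x n) -
          X (l n) k (x n) / (2 * X (l n) (k + 1) (x n))) * (2 * l n) := by
        field_simp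
      rw [h6, Real.norm_eq_abs, abs_mul, abs_of_pos (by positivity : (0 : ℝ) < 2 * l n)]
      calc _ ≤ C / l n ^ 2 * (2 * l n) := mul_le_mul_of_nonneg_right h4.1 (by positivity)
        _ = 2 * C / l n := by field_simp
    have h4 := h3.add h1
    rw [zero_add] at h4
    have h5 : Tendsto (fun n => X (l n) (k + 2) (x n) * (2 * l n)) U (𝓝 (2 * s * u)) :=
      h4.congr fun n => by ring
    refine ⟨?_, ?_, hy, h5⟩
    · have h6 : ∀ᶠ n in (U : Filter ℕ), C / l n < 1 := (k11_inv hl C).eventually_lt_const one_pos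
      filter_upwards [hall, h6] with n h7 h8
      refine ⟨h7.2.1.trans h8.le, ?_, h7.2.2.2⟩
      have h9 : X (l n) (k + 3 + 1) (x n) - -s * l n / 2 = X (l n) (k + 4) (x n) + s * l n / 2 := by
        show X (l n) (k + 4) (x n) - -s * l n / 2 = _
        ring
      rw [h9]
      exact h7.2.2.1
    · have h6 := h5.mul (k11_inv hl (1 / 2))
      rw [mul_zero] at h6
      refine Tendsto.congr' ?_ h6
      filter_upwards [k11_pos hl] with n h7
      field_simp

/-- the first step -/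
theorem k11_first (hK0 : ST_K0) {x : ℕ → ℝ} (hx : ∀ n, x n ∈ Cs (l n)) {c : ℝ}
    (hc : c = 1 ∨ c = -1) (hxc : ∀ n, |x n - (l n + c)| ≤ 1 / 4) :
    ∃ w, |w| ≤ 1 / 2 ∧ k11_St U l x 2 c ∧ Tendsto (fun n => X (l n) 2 (x n)) U (𝓝 (c / 2)) ∧
      Tendsto (fun n => X (l n) 4 (x n)) U (𝓝 w) ∧
      Tendsto (fun n => (X (l n) 2 (x n) - c / 2) * (2 * l n)) U (𝓝 (c * w + 1)) := by
  have hK0' := hK0
  obtain ⟨C, L1, hC, hL1, hK⟩ := hK0'
  have hlL := hl.eventually_ge_atTop L1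
  have hl5 := hl.eventually_ge_atTop 5
  have hSt0 : k11_St U l x 0 1 := by
    filter_upwards [hlL, hl5] with n h1 h2
    have h3 := (hK (l n) h1 (x n) (hx n)).2.1 (by
      have h4 := (abs_le.1 (hxc n)).1
      rcases hc with h | h <;> rw [h] at h4 <;> linarith)
    refine ⟨?_, ?_, h3.1⟩
    · show |(1 : ℝ)| ≤ 1
      rw [abs_one]
    · rw [one_mul]
      exact h3.2
  have hX2 : ∀ n, |X (l n) 2 (x n) - c / 2| ≤ 1 / 8 := by
    intro n
    have h1 : X (l n) 2 (x n) - c / 2 = (x n - (l n + c)) / 2 := by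
      show (x n - l n) / 2 - c / 2 = _
      ring
    rw [h1, abs_div, abs_two]
    linarith [hxc n]
  have hu : Tendsto (fun n => X (l n) 0 (x n)) U (𝓝 1) :=
    (tendsto_const_nhds : Tendsto (fun _ : ℕ => (1 : ℝ)) U (𝓝 1))
  rcases k11_step hl hK0 hx (Or.inl rfl) hSt0 hu with ⟨r, w, hr, hw, h1, h2, h3, h4⟩ |
    ⟨_, h2, _, _⟩
  · have h5 : |r / 2 - c / 2| ≤ 1 / 8 := by
      have h6 : Tendsto (fun n => X (l n) 2 (x n) - c / 2) U (𝓝 (r / 2 - c / 2)) :=
        h2.sub_const _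
      exact k11_lim_abs h6 (tendsto_const_nhds) (Eventually.of_forall hX2)
    have h6 : r = c := by
      have h7 := abs_le.1 h5
      rcases hr with h | h <;> rcases hc with h' | h' <;> rw [h, h'] at h7 <;> rw [h, h'] <;>
        norm_num at h7
    subst h6
    refine ⟨w, hw, ?_, h2, h3, ?_⟩
    · rw [mul_one] at h1
      exact h1
    · rw [mul_one, one_mul] at h4
      exact h4
  · exfalso
    have h5 : |0 - c / 2| ≤ 1 / 8 := by
      have h6 : Tendsto (fun n => X (l n) 2 (x n) - c / 2) U (𝓝 (0 - c / 2)) :=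
        h2.sub_const _
      exact k11_lim_abs h6 (tendsto_const_nhds) (Eventually.of_forall hX2)
    have h7 := abs_le.1 h5
    rcases hc with h' | h' <;> rw [h'] at h7 <;> norm_num at h7

end

/-- exact identities -/
theorem k11_alg (l x y : ℝ) (h : x - y = 2) :
    X l 2 y = -1 / 2 + (X l 2 x - 1 / 2) ∧
    4 * X l 3 x = 2 * l + (2 * ((X l 4 x - X l 4 y) / 2) + 8 * (X l 2 x - 1 / 2) -
      4 * (X l 2 x - 1 / 2) ^ 2) ∧
    4 * X l 3 y = -(2 * l) + (2 * ((X l 4 x - X l 4 y) / 2) - 8 * (X l 2 x - 1 / 2) -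
      4 * (X l 2 x - 1 / 2) ^ 2) ∧
    (X l 4 x - X l 4 y) / 2 = (X l 2 x - 1 / 2) * (2 * l) - 1 + 6 * (X l 2 x - 1 / 2) ^ 2 ∧
    X l 4 x + X l 4 y = 2 * (X l 2 x - 1 / 2) ^ 2 * (2 * l) + 8 * (X l 2 x - 1 / 2) ^ 3 := by
  have hy : y = x - 2 := by linarith
  subst hy
  simp only [X]
  refine ⟨?_, ?_, ?_, ?_, ?_⟩ <;> ring

/-- case B -/
theorem k11_caseB {U : Ultrafilter ℕ} {L d a b X6 X6' : ℕ → ℝ} {α0 β0 Q : ℝ} {p p' : ℕ → ℝ}
    (hd : Tendsto d U (𝓝 0)) (hδ : Tendsto (fun n => d n * L n) U (𝓝 (1 / 2)))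
    (ha : Tendsto a U (𝓝 (-1 / 2))) (hb : Tendsto b U (𝓝 (1 / 2)))
    (hα : Tendsto (fun n => (a n + 1 / 2) * L n) U (𝓝 α0))
    (hβ : Tendsto (fun n => (b n - 1 / 2) * L n) U (𝓝 β0))
    (hp : ∀ n, 4 * p n = L n + (2 * ((a n - b n) / 2) + 8 * d n - 4 * d n ^ 2))
    (hp' : ∀ n, 4 * p' n = -L n + (2 * ((a n - b n) / 2) - 8 * d n - 4 * d n ^ 2))
    (hD : ∀ n, (a n - b n) / 2 = d n * L n - 1 + 6 * d n ^ 2)
    (hS : ∀ n, a n + b n = 2 * d n ^ 2 * L n + 8 * d n ^ 3)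
    (h6 : ∀ n, X6 n = 2 * (2 * a n * p n - (1 / 2 + d n)) * a n - p n)
    (h6' : ∀ n, X6' n = 2 * (2 * b n * p' n - (-1 / 2 + d n)) * b n - p' n)
    (hQ : Tendsto (fun n => (X6 n + X6' n - 1 / 2) * L n) U (𝓝 Q)) :
    α0 + β0 = 1 / 2 ∧ Q = -((α0 - β0) / 2) := by
  have hsum : α0 + β0 = 1 / 2 := by
    have h1 := hα.add hβ
    have h2 : Tendsto (fun n => 2 * (d n * L n) ^ 2 + 8 * d n ^ 2 * (d n * L n)) U
        (𝓝 (2 * (1 / 2) ^ 2 + 8 * 0 ^ 2 * (1 / 2))) :=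
      ((hδ.pow 2).const_mul 2).add (((hd.pow 2).const_mul 8).mul hδ)
    have h3 := tendsto_nhds_unique h1 (h2.congr fun n => by
      linear_combination -(L n) * hS n)
    rw [h3]
    norm_num
  refine ⟨hsum, ?_⟩
  -- the limit of `T` and `T'`
  have hDl : Tendsto (fun n => (a n - b n) / 2) U (𝓝 ((-1 / 2 - 1 / 2) / 2)) :=
    (ha.sub hb).div_const 2
  have hT : Tendsto (fun n => 2 * ((a n - b n) / 2) + 8 * d n - 4 * d n ^ 2) U
      (𝓝 (2 * ((-1 / 2 - 1 / 2) / 2) + 8 * 0 - 4 * 0 ^ 2)) :=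
    ((hDl.const_mul 2).add (hd.const_mul 8)).sub ((hd.pow 2).const_mul 4)
  have hT' : Tendsto (fun n => 2 * ((a n - b n) / 2) - 8 * d n - 4 * d n ^ 2) U
      (𝓝 (2 * ((-1 / 2 - 1 / 2) / 2) - 8 * 0 - 4 * 0 ^ 2)) :=
    ((hDl.const_mul 2).sub (hd.const_mul 8)).sub ((hd.pow 2).const_mul 4)
  have ha1 : Tendsto (fun n => a n + 1 / 2) U (𝓝 (-1 / 2 + 1 / 2)) := ha.add_const _
  have hb1 : Tendsto (fun n => b n - 1 / 2) U (𝓝 (1 / 2 - 1 / 2)) := hb.sub_const _
  have hG1 := (((hα.mul ((hα.sub hT).add (ha1.mul hT))).add hδ).sub hα).sub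
    ((ha1.const_mul 2).mul hδ)
  have hG2 := (((((hβ.pow 2).neg).add ((hβ.mul (hb1.const_add 1)).mul hT')).sub hδ).add hβ).sub
    ((hb1.const_mul 2).mul hδ)
  have hG3 := ((((((hα.sub hβ).div_const 2).sub ((hd.const_mul 6).mul hδ)).const_mul 2).mul
    (hδ.add_const (1 / 2))).add ((hd.const_mul 8).mul (hδ.pow 2)))
  have hG := ((hG3.sub hG1).sub hG2).neg
  have h1 := tendsto_nhds_unique hQ (hG.congr fun n => by
    rw [h6, h6']
    have e1 := hp n
    have e2 := hp' n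
    have e3 := hD n
    have e4 := hS n
    have e5 : p n = (L n + (2 * ((a n - b n) / 2) + 8 * d n - 4 * d n ^ 2)) / 4 := by
      linarith
    have e6 : p' n = (-L n + (2 * ((a n - b n) / 2) - 8 * d n - 4 * d n ^ 2)) / 4 := by
      linarith
    rw [e5, e6]
    linear_combination (L n) ^ 2 * e4 - 2 * L n * (d n * L n + 1 / 2) * e3)
  rw [h1]
  linear_combination (α0 - β0) * hsum

/-- case C -/
theorem k11_caseC {U : Ultrafilter ℕ} {L d a b y y' W W' ζ ζ' : ℕ → ℝ} {ζ0 ζ1 : ℝ} {p p' : ℕ → ℝ}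
    (hL0 : ∀ n, 0 < L n) (hL : Tendsto (fun n => 1 / L n) U (𝓝 0))
    (hd : Tendsto d U (𝓝 0)) (hδ : Tendsto (fun n => d n * L n) U (𝓝 1))
    (ha : Tendsto a U (𝓝 0)) (hb : Tendsto b U (𝓝 0))
    (haL : Tendsto (fun n => a n * L n) U (𝓝 1)) (hbL : Tendsto (fun n => b n * L n) U (𝓝 1))
    (hy : Tendsto y U (𝓝 0)) (hy' : Tendsto y' U (𝓝 0))
    (hζ : Tendsto ζ U (𝓝 ζ0)) (hζ' : Tendsto ζ' U (𝓝 ζ1))
    (hW : Tendsto (fun n => W n / L n) U (𝓝 (-1 / 4)))
    (hW' : Tendsto (fun n => W' n / L n) U (𝓝 (1 / 4)))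
    (hp : ∀ n, 4 * p n = L n + (2 * ((a n - b n) / 2) + 8 * d n - 4 * d n ^ 2))
    (hp' : ∀ n, 4 * p' n = -L n + (2 * ((a n - b n) / 2) - 8 * d n - 4 * d n ^ 2))
    (hD : ∀ n, (a n - b n) / 2 = d n * L n - 1 + 6 * d n ^ 2)
    (hS : ∀ n, a n + b n = 2 * d n ^ 2 * L n + 8 * d n ^ 3)
    (h5 : ∀ n, y n = 2 * a n * p n - (1 / 2 + d n))
    (h5' : ∀ n, y' n = 2 * b n * p' n - (-1 / 2 + d n))
    (h6 : ∀ n, W n = 2 * y n * a n - p n) (h6' : ∀ n, W' n = 2 * y' n * b n - p' n)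
    (h7 : ∀ n, ζ n = 2 * W n * y n - a n) (h7' : ∀ n, ζ' n = 2 * W' n * y' n - b n) :
    Tendsto (fun n => (ζ n + ζ' n) * L n) U (𝓝 (-2 * (2 + ζ1 - ζ0))) := by
  have hη : Tendsto (fun n => y n * L n) U (𝓝 (-2 * ζ0)) := by
    have h1 : Tendsto (fun n => (ζ n + a n) / (2 * (W n / L n))) U
        (𝓝 ((ζ0 + 0) / (2 * (-1 / 4)))) :=
      (hζ.add ha).div (hW.const_mul 2) (by norm_num)
    have h2 : (ζ0 + 0) / (2 * (-1 / 4)) = -2 * ζ0 := by ring
    rw [h2] at h1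
    refine h1.congr' ?_
    filter_upwards [hW.eventually_ne (by norm_num : (-1 / 4 : ℝ) ≠ 0)] with n h3
    have h4 : ζ n + a n = 2 * W n * y n := by rw [h7]; ring
    have h5 : W n ≠ 0 := fun h => h3 (by rw [h, zero_div])
    have h6 := (hL0 n).ne'
    rw [h4]
    field_simp
  have hη' : Tendsto (fun n => y' n * L n) U (𝓝 (2 * ζ1)) := by
    have h1 : Tendsto (fun n => (ζ' n + b n) / (2 * (W' n / L n))) U
        (𝓝 ((ζ1 + 0) / (2 * (1 / 4)))) :=
      (hζ'.add hb).div (hW'.const_mul 2) (by norm_num)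
    have h2 : (ζ1 + 0) / (2 * (1 / 4)) = 2 * ζ1 := by ring
    rw [h2] at h1
    refine h1.congr' ?_
    filter_upwards [hW'.eventually_ne (by norm_num : (1 / 4 : ℝ) ≠ 0)] with n h3
    have h4 : ζ' n + b n = 2 * W' n * y' n := by rw [h7']; ring
    have h5 : W' n ≠ 0 := fun h => h3 (by rw [h, zero_div])
    have h6 := (hL0 n).ne'
    rw [h4]
    field_simp
  have hDl : Tendsto (fun n => (a n - b n) / 2) U (𝓝 ((0 - 0) / 2)) := (ha.sub hb).div_const 2
  have hq : Tendsto (fun n => (a n - b n) / 2 / 2 - d n ^ 2) U (𝓝 ((0 - 0) / 2 / 2 - 0 ^ 2)) :=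
    (hDl.div_const 2).sub (hd.pow 2)
  have hSL : Tendsto (fun n => (a n + b n) * L n) U (𝓝 (1 + 1)) :=
    (haL.add hbL).congr fun n => by ring
  -- `D L ^ 2`
  have hE : Tendsto (fun n => (a n - b n) / 2 * L n ^ 2) U (𝓝 (2 * (1 - ζ0 + ζ1))) := by
    have h1 : Tendsto (fun n => (d n * L n + (y n * L n + y' n * L n) / 2 -
        ((a n - b n) / 2 / 2 - d n ^ 2) * ((a n + b n) * L n)) / (1 / 2 + 4 * d n * (1 / L n))) U
        (𝓝 ((1 + (-2 * ζ0 + 2 * ζ1) / 2 - ((0 - 0) / 2 / 2 - 0 ^ 2) * (1 + 1)) /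
          (1 / 2 + 4 * 0 * 0))) := by
      refine ((hδ.add ((hη.add hη').div_const 2)).sub (hq.mul hSL)).div ?_ (by norm_num)
      exact tendsto_const_nhds.add ((hd.const_mul 4).mul hL)
    have h2 : (1 + (-2 * ζ0 + 2 * ζ1) / 2 - ((0 - 0) / 2 / 2 - 0 ^ 2) * (1 + 1)) /
          (1 / 2 + 4 * 0 * 0) = 2 * (1 - ζ0 + ζ1) := by ring
    rw [h2] at h1
    have h3 : Tendsto (fun n => 1 / 2 + 4 * d n * (1 / L n)) U (𝓝 (1 / 2 + 4 * 0 * 0)) :=
      tendsto_const_nhds.add ((hd.const_mul 4).mul hL)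
    refine h1.congr' ?_
    filter_upwards [h3.eventually_ne (by norm_num : (1 / 2 + 4 * 0 * 0 : ℝ) ≠ 0)] with n h4
    rw [div_eq_iff h4]
    have e1 := hp n
    have e2 := hp' n
    have e7 := (hL0 n).ne'
    have e5 : p n = (L n + (2 * ((a n - b n) / 2) + 8 * d n - 4 * d n ^ 2)) / 4 := by
      linarith
    have e6 : p' n = (-L n + (2 * ((a n - b n) / 2) - 8 * d n - 4 * d n ^ 2)) / 4 := by
      linarith
    rw [h5, h5', e5, e6]
    field_simp
    ring
  have hδ1 : Tendsto (fun n => (d n * L n - 1) * L n ^ 2) U (𝓝 (2 * (1 - ζ0 + ζ1) - 6 * 1 ^ 2)) := by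
    refine (hE.sub ((hδ.pow 2).const_mul 6)).congr fun n => ?_
    rw [hD]
    ring
  have hA : Tendsto (fun n => (y n - y' n) * L n ^ 2) U
      (𝓝 ((2 * (1 - ζ0 + ζ1) - 6 * 1 ^ 2) * (1 + 1) + 12 * 1 ^ 3 + 32 * 0 ^ 2 * 1 ^ 2 +
        4 * ((0 - 0) / 2 / 2 - 0 ^ 2) * (2 * (1 - ζ0 + ζ1)))) := by
    refine ((((hδ1.mul (hδ.add_const 1)).add ((hδ.pow 3).const_mul 12)).add
      (((hd.pow 2).const_mul 32).mul (hδ.pow 2))).add ((hq.const_mul 4).mul hE)).congr fun n => ?_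
    have e1 := hp n
    have e2 := hp' n
    have e4 := hS n
    have e5 : p n = (L n + (2 * ((a n - b n) / 2) + 8 * d n - 4 * d n ^ 2)) / 4 := by
      linarith
    have e6 : p' n = (-L n + (2 * ((a n - b n) / 2) - 8 * d n - 4 * d n ^ 2)) / 4 := by
      linarith
    rw [h5, h5', e5, e6]
    linear_combination -(L n) ^ 2 * (L n / 2 + 4 * d n) * e4
  have hT : Tendsto (fun n => 2 * ((a n - b n) / 2) + 8 * d n - 4 * d n ^ 2) U
      (𝓝 (2 * ((0 - 0) / 2) + 8 * 0 - 4 * 0 ^ 2)) :=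
    ((hDl.const_mul 2).add (hd.const_mul 8)).sub ((hd.pow 2).const_mul 4)
  have hT' : Tendsto (fun n => 2 * ((a n - b n) / 2) - 8 * d n - 4 * d n ^ 2) U
      (𝓝 (2 * ((0 - 0) / 2) - 8 * 0 - 4 * 0 ^ 2)) :=
    ((hDl.const_mul 2).sub (hd.const_mul 8)).sub ((hd.pow 2).const_mul 4)
  have hB := ((((hA.add (hSL.const_mul 2)).add
    ((hT.sub ((hy.const_mul 8).mul ha)).mul hη))).add
      ((hT'.sub ((hy'.const_mul 8).mul hb)).mul hη')).const_mul (-1 / 2)
  have h1 : -2 * (2 + ζ1 - ζ0) = -1 / 2 * ((2 * (1 - ζ0 + ζ1) - 6 * 1 ^ 2) * (1 + 1) + 12 * 1 ^ 3 +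
      32 * 0 ^ 2 * 1 ^ 2 + 4 * ((0 - 0) / 2 / 2 - 0 ^ 2) * (2 * (1 - ζ0 + ζ1)) + 2 * (1 + 1) +
      (2 * ((0 - 0) / 2) + 8 * 0 - 4 * 0 ^ 2 - 8 * 0 * 0) * (-2 * ζ0) +
      (2 * ((0 - 0) / 2) - 8 * 0 - 4 * 0 ^ 2 - 8 * 0 * 0) * (2 * ζ1)) := by ring
  rw [h1]
  refine hB.congr fun n => ?_
  have e1 := hp n
  have e2 := hp' n
  rw [h7, h7', h6, h6']
  linear_combination (y n * L n) / 2 * e1 + (y' n * L n) / 2 * e2

theorem st_K11 (hK0 : ST_K0) : ST_K11 := by
  by_contra hneg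
  unfold ST_K11 at hneg
  push Not at hneg
  have hseq : ∀ n : ℕ, ∃ l x y : ℝ, (n : ℝ) + 1 ≤ l ∧ x ∈ Cs l ∧ y ∈ Cs l ∧
      |x - (l + 1)| ≤ 1 / 4 ∧ |y - (l - 1)| ≤ 1 / 4 ∧ x - y = 2 := by
    intro n
    obtain ⟨l, h1, x, h2, y, h3, h4, h5, h6⟩ := hneg ((n : ℝ) + 1) (by
      have := Nat.cast_nonneg (α := ℝ) n
      linarith)
    exact ⟨l, x, y, h1, h2, h3, h4, h5, h6⟩
  choose l x y hln hx hy hxl hyl hxy using hseq
  set U : Ultrafilter ℕ := hyperfilter ℕ with hU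
  have hlat : Tendsto l atTop atTop := by
    refine tendsto_atTop_mono (fun n => ?_) tendsto_natCast_atTop_atTop
    linarith [hln n]
  have hl : Tendsto l U atTop := hlat.mono_left Nat.hyperfilter_le_atTop
  have hlpos : ∀ n, 0 < l n := fun n => by
    have h1 := Nat.cast_nonneg (α := ℝ) n
    linarith [hln n]
  obtain ⟨a0, ha1, hxSt, hxz, hxa, hxδ⟩ := k11_first hl hK0 hx (Or.inl rfl) hxl
  obtain ⟨b0, hb1, hySt, hyz, hyb, hyδ⟩ := k11_first hl hK0 hy (Or.inr rfl)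
    (fun n => by rw [← sub_eq_add_neg]; exact hyl n)
  have halg := fun n => k11_alg (l n) (x n) (y n) (hxy n)
  -- the common displacement
  have hd : Tendsto (fun n => X (l n) 2 (x n) - 1 / 2) U (𝓝 0) := by
    have h1 := hxz.sub_const (1 / 2)
    rwa [sub_self] at h1
  have hδ : Tendsto (fun n => (X (l n) 2 (x n) - 1 / 2) * (2 * l n)) U (𝓝 (a0 + 1)) := by
    rw [one_mul] at hxδ
    exact hxδ
  have hab : a0 + b0 = 0 := by
    have h1 := tendsto_nhds_unique hδ (hyδ.congr fun n => by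
      rw [(halg n).1]
      ring)
    linarith
  have hp := fun n => (halg n).2.1
  have hp' := fun n => (halg n).2.2.1
  have hD := fun n => (halg n).2.2.2.1
  have hS := fun n => (halg n).2.2.2.2
  have h5 : ∀ n, X (l n) 5 (x n) = 2 * X (l n) 4 (x n) * X (l n) 3 (x n) -
      (1 / 2 + (X (l n) 2 (x n) - 1 / 2)) := by
    intro n
    rw [add_sub_cancel]
    rfl
  have h5' : ∀ n, X (l n) 5 (y n) = 2 * X (l n) 4 (y n) * X (l n) 3 (y n) -
      (-1 / 2 + (X (l n) 2 (x n) - 1 / 2)) := by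
    intro n
    rw [← (halg n).1]
    rfl
  rcases k11_step hl hK0 hx (Or.inl rfl) hxSt hxz with
    ⟨r, w, hr, hw, hSt1, g1, g2, g3⟩ | ⟨hSt1, g1, g2, g3⟩ <;>
  rcases k11_step hl hK0 hy (Or.inr rfl) hySt hyz with
    ⟨r', w', hr', hw', hSt2, g1', g2', g3'⟩ | ⟨hSt2, g1', g2', g3'⟩
  · have ea : a0 = r / 2 := tendsto_nhds_unique hxa g1
    have eb : b0 = r' / 2 := tendsto_nhds_unique hyb g1'
    have hw1 := abs_le.1 hw
    have hw1' := abs_le.1 hw'
    rcases hr with rfl | rfl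
    · -- case A
      have hr1 : r' = -1 := by linarith
      subst hr1
      have h1 := g3.add g3'
      have h2 : Tendsto (fun n => 2 * ((X (l n) 2 (x n) - 1 / 2) * (2 * l n)) ^ 2 +
          8 * (X (l n) 2 (x n) - 1 / 2) ^ 2 * ((X (l n) 2 (x n) - 1 / 2) * (2 * l n))) U
          (𝓝 (2 * (a0 + 1) ^ 2 + 8 * 0 ^ 2 * (a0 + 1))) :=
        ((hδ.pow 2).const_mul 2).add (((hd.pow 2).const_mul 8).mul hδ)
      have h3 := tendsto_nhds_unique h1 (h2.congr fun n => by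
        show _ = (X (l n) 4 (x n) - 1 / 2) * (2 * l n) +
          (X (l n) 4 (y n) - -1 / 2) * (2 * l n)
        linear_combination -(2 * l n) * hS n)
      rw [ea] at h3
      linarith
    · -- case B
      have hr1 : r' = 1 := by linarith
      subst hr1
      have hSt1' : k11_St U l x 4 (-1) := by
        have h1 : (-1 : ℝ) * 1 = -1 := by norm_num
        rw [h1] at hSt1
        exact hSt1
      have hSt2' : k11_St U l y 4 (-1) := by
        have h1 : (1 : ℝ) * -1 = -1 := by norm_num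
        rw [h1] at hSt2
        exact hSt2
      have hα : Tendsto (fun n => (X (l n) 4 (x n) + 1 / 2) * (2 * l n)) U (𝓝 (1 / 2 - w)) := by
        have h1 : -1 * 1 * w + 1 * (1 / 2) = 1 / 2 - w := by ring
        rw [h1] at g3
        refine g3.congr fun n => ?_
        show (X (l n) 4 (x n) - -1 / 2) * (2 * l n) = _
        ring
      have hβ : Tendsto (fun n => (X (l n) 4 (y n) - 1 / 2) * (2 * l n)) U (𝓝 (1 / 2 - w')) := by
        have h1 : 1 * -1 * w' + -1 * (-1 / 2) = 1 / 2 - w' := by ring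
        rw [h1] at g3'
        exact g3'
      have hδ2 : Tendsto (fun n => (X (l n) 2 (x n) - 1 / 2) * (2 * l n)) U (𝓝 (1 / 2)) := by
        have h1 : a0 + 1 = 1 / 2 := by rw [ea]; norm_num
        rwa [h1] at hδ
      have hxa' : Tendsto (fun n => X (l n) 4 (x n)) U (𝓝 (-1 / 2)) := g1
      have hyb' : Tendsto (fun n => X (l n) 4 (y n)) U (𝓝 (1 / 2)) := g1'
      have h6 : ∀ n, X (l n) 6 (x n) = 2 * (2 * X (l n) 4 (x n) * X (l n) 3 (x n) -
          (1 / 2 + (X (l n) 2 (x n) - 1 / 2))) * X (l n) 4 (x n) - X (l n) 3 (x n) := by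
        intro n
        rw [← h5]
        rfl
      have h6' : ∀ n, X (l n) 6 (y n) = 2 * (2 * X (l n) 4 (y n) * X (l n) 3 (y n) -
          (-1 / 2 + (X (l n) 2 (x n) - 1 / 2))) * X (l n) 4 (y n) - X (l n) 3 (y n) := by
        intro n
        rw [← h5']
        rfl
      have key : ∀ Q : ℝ, Tendsto (fun n => (X (l n) 6 (x n) + X (l n) 6 (y n) - 1 / 2) *
          (2 * l n)) U (𝓝 Q) → (1 / 2 - w) + (1 / 2 - w') = 1 / 2 ∧
            Q = -(((1 / 2 - w) - (1 / 2 - w')) / 2) := fun Q hQ =>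
        k11_caseB hd hδ2 hxa' hyb' hα hβ hp hp' hD hS h6 h6' hQ
      have hx6 : Tendsto (fun n => X (l n) 6 (x n)) U (𝓝 w) := g2
      have hy6 : Tendsto (fun n => X (l n) 6 (y n)) U (𝓝 w') := g2'
      rcases k11_step hl hK0 hx (Or.inr rfl) hSt1' hxa' with
        ⟨r2, w2, hr2, hw2, _, f1, _, f3⟩ | ⟨_, f1, _, f3⟩ <;>
      rcases k11_step hl hK0 hy (Or.inr rfl) hSt2' hyb' with
        ⟨r2', w2', hr2', hw2', _, f1', _, f3'⟩ | ⟨_, f1', _, f3'⟩
      · have e1 : w = r2 / 2 := tendsto_nhds_unique hx6 f1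
        have e2 : w' = r2' / 2 := tendsto_nhds_unique hy6 f1'
        have h7 := f3.add f3'
        have hsum : w + w' = 1 / 2 := by
          have hα2 : Tendsto (fun n => (X (l n) 4 (x n) + 1 / 2) * (2 * l n) +
              (X (l n) 4 (y n) - 1 / 2) * (2 * l n)) U (𝓝 ((1 / 2 - w) + (1 / 2 - w'))) :=
            hα.add hβ
          have h2 : Tendsto (fun n => 2 * ((X (l n) 2 (x n) - 1 / 2) * (2 * l n)) ^ 2 +
              8 * (X (l n) 2 (x n) - 1 / 2) ^ 2 * ((X (l n) 2 (x n) - 1 / 2) * (2 * l n))) U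
              (𝓝 (2 * (1 / 2) ^ 2 + 8 * 0 ^ 2 * (1 / 2))) :=
            ((hδ2.pow 2).const_mul 2).add (((hd.pow 2).const_mul 8).mul hδ2)
          have h3 := tendsto_nhds_unique hα2 (h2.congr fun n => by
            linear_combination -(2 * l n) * hS n)
          linarith
        rcases hr2 with h | h <;> rcases hr2' with h' | h' <;> rw [h] at e1 <;> rw [h'] at e2 <;>
          rw [e1, e2] at hsum <;> norm_num at hsum
      · have e1 : w = r2 / 2 := tendsto_nhds_unique hx6 f1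
        have e2 : w' = 0 := tendsto_nhds_unique hy6 f1'
        have hQ : Tendsto (fun n => (X (l n) 6 (x n) + X (l n) 6 (y n) - r2 / 2) *
            (2 * l n)) U (𝓝 ((r2 * -1 * w2 + -1 * (-1 / 2)) + 2 * -1 * (1 / 2))) := by
          refine (f3.add f3').congr fun n => ?_
          show (X (l n) 6 (x n) - r2 / 2) * (2 * l n) + X (l n) 6 (y n) * (2 * l n) = _
          ring
        have hw3 := abs_le.1 hw2
        rcases hr2 with rfl | rfl
        · obtain ⟨k1, k2⟩ := key _ hQ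
          rw [e1, e2] at k2
          linarith
        · have hα2 : Tendsto (fun n => (X (l n) 4 (x n) + 1 / 2) * (2 * l n) +
              (X (l n) 4 (y n) - 1 / 2) * (2 * l n)) U (𝓝 ((1 / 2 - w) + (1 / 2 - w'))) :=
            hα.add hβ
          have h2 : Tendsto (fun n => 2 * ((X (l n) 2 (x n) - 1 / 2) * (2 * l n)) ^ 2 +
              8 * (X (l n) 2 (x n) - 1 / 2) ^ 2 * ((X (l n) 2 (x n) - 1 / 2) * (2 * l n))) U
              (𝓝 (2 * (1 / 2) ^ 2 + 8 * 0 ^ 2 * (1 / 2))) :=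
            ((hδ2.pow 2).const_mul 2).add (((hd.pow 2).const_mul 8).mul hδ2)
          have h3 := tendsto_nhds_unique hα2 (h2.congr fun n => by
            linear_combination -(2 * l n) * hS n)
          rw [e1, e2] at h3
          norm_num at h3
      · have e1 : w = 0 := tendsto_nhds_unique hx6 f1
        have e2 : w' = r2' / 2 := tendsto_nhds_unique hy6 f1'
        have hQ : Tendsto (fun n => (X (l n) 6 (x n) + X (l n) 6 (y n) - r2' / 2) *
            (2 * l n)) U (𝓝 (2 * -1 * (-1 / 2) + (r2' * -1 * w2' + -1 * (1 / 2)))) := by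
          refine (f3.add f3').congr fun n => ?_
          show X (l n) 6 (x n) * (2 * l n) + (X (l n) 6 (y n) - r2' / 2) * (2 * l n) = _
          ring
        have hw3 := abs_le.1 hw2'
        rcases hr2' with rfl | rfl
        · obtain ⟨k1, k2⟩ := key _ hQ
          rw [e1, e2] at k2
          linarith
        · have hα2 : Tendsto (fun n => (X (l n) 4 (x n) + 1 / 2) * (2 * l n) +
              (X (l n) 4 (y n) - 1 / 2) * (2 * l n)) U (𝓝 ((1 / 2 - w) + (1 / 2 - w'))) :=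
            hα.add hβ
          have h2 : Tendsto (fun n => 2 * ((X (l n) 2 (x n) - 1 / 2) * (2 * l n)) ^ 2 +
              8 * (X (l n) 2 (x n) - 1 / 2) ^ 2 * ((X (l n) 2 (x n) - 1 / 2) * (2 * l n))) U
              (𝓝 (2 * (1 / 2) ^ 2 + 8 * 0 ^ 2 * (1 / 2))) :=
            ((hδ2.pow 2).const_mul 2).add (((hd.pow 2).const_mul 8).mul hδ2)
          have h3 := tendsto_nhds_unique hα2 (h2.congr fun n => by
            linear_combination -(2 * l n) * hS n)
          rw [e1, e2] at h3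
          norm_num at h3
      · have e1 : w = 0 := tendsto_nhds_unique hx6 f1
        have e2 : w' = 0 := tendsto_nhds_unique hy6 f1'
        have hα2 : Tendsto (fun n => (X (l n) 4 (x n) + 1 / 2) * (2 * l n) +
            (X (l n) 4 (y n) - 1 / 2) * (2 * l n)) U (𝓝 ((1 / 2 - w) + (1 / 2 - w'))) :=
          hα.add hβ
        have h2 : Tendsto (fun n => 2 * ((X (l n) 2 (x n) - 1 / 2) * (2 * l n)) ^ 2 +
            8 * (X (l n) 2 (x n) - 1 / 2) ^ 2 * ((X (l n) 2 (x n) - 1 / 2) * (2 * l n))) U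
            (𝓝 (2 * (1 / 2) ^ 2 + 8 * 0 ^ 2 * (1 / 2))) :=
          ((hδ2.pow 2).const_mul 2).add (((hd.pow 2).const_mul 8).mul hδ2)
        have h3 := tendsto_nhds_unique hα2 (h2.congr fun n => by
          linear_combination -(2 * l n) * hS n)
        rw [e1, e2] at h3
        norm_num at h3
  · have ea : a0 = r / 2 := tendsto_nhds_unique hxa g1
    have eb : b0 = 0 := tendsto_nhds_unique hyb g1'
    rcases hr with rfl | rfl <;> linarith
  · have ea : a0 = 0 := tendsto_nhds_unique hxa g1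
    have eb : b0 = r' / 2 := tendsto_nhds_unique hyb g1'
    rcases hr' with rfl | rfl <;> linarith
  · -- case C
    have ea : a0 = 0 := tendsto_nhds_unique hxa g1
    have hδ2 : Tendsto (fun n => (X (l n) 2 (x n) - 1 / 2) * (2 * l n)) U (𝓝 1) := by
      have h1 : a0 + 1 = 1 := by rw [ea]; norm_num
      rwa [h1] at hδ
    have hx4 : Tendsto (fun n => X (l n) 4 (x n)) U (𝓝 0) := g1
    have hy4 : Tendsto (fun n => X (l n) 4 (y n)) U (𝓝 0) := g1'
    have hx5 : Tendsto (fun n => X (l n) 5 (x n)) U (𝓝 0) := g2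
    have hy5 : Tendsto (fun n => X (l n) 5 (y n)) U (𝓝 0) := g2'
    have hSt1' : k11_St U l x 5 (-1) := hSt1
    have hSt2' : k11_St U l y 5 1 := by
      have h1 : -(-1 : ℝ) = 1 := by norm_num
      rw [h1] at hSt2
      exact hSt2
    have haL : Tendsto (fun n => X (l n) 4 (x n) * (2 * l n)) U (𝓝 1) := by
      have h1 : 2 * 1 * (1 / 2) = (1 : ℝ) := by norm_num
      rw [h1] at g3
      exact g3
    have hbL : Tendsto (fun n => X (l n) 4 (y n) * (2 * l n)) U (𝓝 1) := by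
      have h1 : 2 * -1 * (-1 / 2) = (1 : ℝ) := by norm_num
      rw [h1] at g3'
      exact g3'
    have hL0 : ∀ n, 0 < 2 * l n := fun n => by linarith [hlpos n]
    have hL : Tendsto (fun n => 1 / (2 * l n)) U (𝓝 0) := by
      refine (k11_inv hl (1 / 2)).congr fun n => ?_
      have := (hlpos n).ne'
      field_simp
    have hW : Tendsto (fun n => X (l n) 6 (x n) / (2 * l n)) U (𝓝 (-1 / 4)) := by
      have h1 := (k11_big hl (P := fun n => X (l n) 6 (x n)) (s := -1)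
        (hSt1'.mono fun n h => h.2.1)).mul_const (1 / 2)
      have h2 : (-1 : ℝ) / 2 * (1 / 2) = -1 / 4 := by norm_num
      rw [h2] at h1
      refine h1.congr fun n => ?_
      have := (hlpos n).ne'
      field_simp
    have hW' : Tendsto (fun n => X (l n) 6 (y n) / (2 * l n)) U (𝓝 (1 / 4)) := by
      have h1 := (k11_big hl (P := fun n => X (l n) 6 (y n)) (s := 1)
        (hSt2'.mono fun n h => h.2.1)).mul_const (1 / 2)
      have h2 : (1 : ℝ) / 2 * (1 / 2) = 1 / 4 := by norm_num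
      rw [h2] at h1
      refine h1.congr fun n => ?_
      have := (hlpos n).ne'
      field_simp
    have key : ∀ ζ0 ζ1 : ℝ, Tendsto (fun n => X (l n) 7 (x n)) U (𝓝 ζ0) →
        Tendsto (fun n => X (l n) 7 (y n)) U (𝓝 ζ1) →
        Tendsto (fun n => (X (l n) 7 (x n) + X (l n) 7 (y n)) * (2 * l n)) U
          (𝓝 (-2 * (2 + ζ1 - ζ0))) := fun ζ0 ζ1 h0 h1 =>
      k11_caseC hL0 hL hd hδ2 hx4 hy4 haL hbL hx5 hy5 h0 h1 hW hW' hp hp' hD hS h5 h5'
        (fun n => rfl) (fun n => rfl) (fun n => rfl) (fun n => rfl)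
    have hzero : ∀ ζ0 ζ1 : ℝ, Tendsto (fun n => X (l n) 7 (x n)) U (𝓝 ζ0) →
        Tendsto (fun n => X (l n) 7 (y n)) U (𝓝 ζ1) → ζ0 + ζ1 = 0 := by
      intro ζ0 ζ1 h0 h1
      have h2 := (key ζ0 ζ1 h0 h1).mul hL
      rw [mul_zero] at h2
      refine tendsto_nhds_unique (h0.add h1) (h2.congr fun n => ?_)
      have := (hlpos n).ne'
      field_simp
    rcases k11_step hl hK0 hx (Or.inr rfl) hSt1' hx5 with
      ⟨r, w, hr, hw, _, f1, _, f3⟩ | ⟨_, f1, _, f3⟩ <;>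
    rcases k11_step hl hK0 hy (Or.inl rfl) hSt2' hy5 with
      ⟨r', w', hr', hw', _, f1', _, f3'⟩ | ⟨_, f1', _, f3'⟩
    · have hz := hzero _ _ f1 f1'
      have hk := key _ _ f1 f1'
      have h8 := tendsto_nhds_unique hk ((f3.add f3').congr fun n => by
        show (X (l n) 7 (x n) - r / 2) * (2 * l n) + (X (l n) 7 (y n) - r' / 2) * (2 * l n) = _
        linear_combination -(2 * l n) * hz)
      have hw1 := abs_le.1 hw
      have hw1' := abs_le.1 hw'
      rcases hr with rfl | rfl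
      · have hr1 : r' = -1 := by linarith
        subst hr1
        linarith
      · have hr1 : r' = 1 := by linarith
        subst hr1
        linarith
    · have hz := hzero _ _ f1 f1'
      rcases hr with rfl | rfl <;> norm_num at hz
    · have hz := hzero _ _ f1 f1'
      rcases hr' with rfl | rfl <;> norm_num at hz
    · have hk := key _ _ f1 f1'
      have h8 := tendsto_nhds_unique hk ((f3.add f3').congr fun n => by
        show X (l n) 7 (x n) * (2 * l n) + X (l n) 7 (y n) * (2 * l n) = _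
        ring)
      norm_num at h8

end Pool.Agent.Helper36.CV
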