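import Pool.Agent.Helper36.CV.StmtsW

/-!
# CV, modules T1, T2, T5
-/

set_option autoImplicit false

namespace Pool.Agent.Helper36.CV

open Complex

theorem t1_inv (l E : ℝ) (n : ℕ) :
    X l (n + 2) E ^ 2 + X l (n + 1) E ^ 2 + X l n E ^ 2
      - 2 * X l (n + 2) E * X l (n + 1) E * X l n E - 1 = l ^ 2 / 4 := by
  induction n with
  | zero =>
    simp only [X]
    ring
  | succ n ih =>
    have e : X l (n + 1 + 2) E = 2 * X l (n + 2) E * X l (n + 1) E - X l n E := by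
      show X l (n + 3) E = _
      rw [X]
    rw [e, ← ih, show n + 1 + 1 = n + 2 from rfl]
    ring

theorem t1_tr (A B : Matrix (Fin 2) (Fin 2) ℝ) :
    (B * (A * B)).trace = B.trace * (A * B).trace - B.det * A.trace := by
  simp only [Matrix.trace, Matrix.diag, Matrix.det_fin_two, Matrix.mul_apply, Fin.sum_univ_two]
  ring

theorem t1_all (l E : ℝ) (n : ℕ) : (M l E n).trace = 2 * X l n E ∧
    (M l E (n + 1)).trace = 2 * X l (n + 1) E ∧ (M l E (n + 2)).trace = 2 * X l (n + 2) E ∧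
    (M l E n).det = 1 ∧ (M l E (n + 1)).det = 1 := by
  induction n with
  | zero =>
    refine ⟨?_, ?_, ?_, ?_, ?_⟩
    · simp [M, X, Matrix.trace_fin_two]
      norm_num
    · simp [M, X, Matrix.trace_fin_two]
      ring
    · simp [M, X, Matrix.trace_fin_two]
      ring
    · simp [M, Matrix.det_fin_two]
    · simp [M, Matrix.det_fin_two]
  | succ n ih =>
    obtain ⟨h1, h2, h3, h4, h5⟩ := ih
    refine ⟨h2, h3, ?_, h5, ?_⟩
    · have e1 : M l E (n + 1 + 2) = M l E (n + 1) * (M l E n * M l E (n + 1)) := by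
        rw [M, show n + 1 + 1 = n + 2 from rfl]
        rw [M]
      have e2 : (M l E n * M l E (n + 1)).trace = 2 * X l (n + 2) E := by
        rw [← h3, M]
      have e3 : X l (n + 1 + 2) E = 2 * X l (n + 2) E * X l (n + 1) E - X l n E := by
        show X l (n + 3) E = _
        rw [X]
      rw [e1, t1_tr, e2, h1, h2, h5, e3]
      ring
    · rw [show n + 1 + 1 = n + 2 from rfl, M, Matrix.det_mul, h4, h5]
      norm_num

theorem st_T1 : ST_T1 := by
  intro l E n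
  obtain ⟨h1, h2, h3, h4, h5⟩ := t1_all l E n
  refine ⟨t1_inv l E n, h1, h4, ?_⟩
  have e2 : (M l E n * M l E (n + 1)).trace = 2 * X l (n + 2) E := by
    rw [← h3, M]
  unfold frick hx
  rw [h1, h2, e2, ← t1_inv l E n]
  ring

/-! ### T2 -/

theorem t2_sign {u v : ℝ} (h : u * v < 0) : (0 < u ↔ v < 0) ∧ (u < 0 ↔ 0 < v) := by
  rcases mul_neg_iff.1 h with ⟨h1, h2⟩ | ⟨h1, h2⟩
  · exact ⟨⟨fun _ => h2, fun _ => h1⟩, ⟨fun h => absurd h (not_lt.2 h1.le),
      fun h => absurd h (not_lt.2 h2.le)⟩⟩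
  · exact ⟨⟨fun h => absurd h (not_lt.2 h1.le), fun h => absurd h (not_lt.2 h2.le)⟩,
      ⟨fun _ => h2, fun _ => h1⟩⟩

/-- the lower left entry of an elliptic matrix does not vanish -/
theorem t2_ne {A : Matrix (Fin 2) (Fin 2) ℝ} (hA : A.det = 1) (h : |hx A| < 1) : A 1 0 ≠ 0 := by
  intro h0
  rw [Matrix.det_fin_two, h0] at hA
  unfold hx at h
  rw [Matrix.trace_fin_two, abs_lt] at h
  nlinarith [sq_nonneg (A 0 0 - A 1 1), h.1, h.2]

theorem t2_key {A B : Matrix (Fin 2) (Fin 2) ℝ} (hA : A.det = 1) (hB : B.det = 1)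
    (h1 : |hx A| < 1) (h2 : |hx B| < 1) : A 1 0 * B 1 0 * (hx (A * B) - hx A * hx B) < 0 := by
  have n1 := t2_ne hA h1
  have n2 := t2_ne hB h2
  have d1 : 0 < 1 - hx A ^ 2 := by
    have := (sq_lt_one_iff_abs_lt_one _).2 h1
    linarith
  have d2 : 0 < 1 - hx B ^ 2 := by
    have := (sq_lt_one_iff_abs_lt_one _).2 h2
    linarith
  have key : 2 * (A 1 0 * B 1 0 * (hx (A * B) - hx A * hx B)) =
      -(((A 0 0 - A 1 1) / 2 * B 1 0 - (B 0 0 - B 1 1) / 2 * A 1 0) ^ 2 +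
        (1 - hx A ^ 2) * B 1 0 ^ 2 + (1 - hx B ^ 2) * A 1 0 ^ 2) +
      (A.det - 1) * (-B 1 0 ^ 2) + (B.det - 1) * (-A 1 0 ^ 2) := by
    unfold hx
    simp only [Matrix.trace_fin_two, Matrix.det_fin_two, Matrix.mul_apply, Fin.sum_univ_two]
    ring
  rw [hA, hB] at key
  have p1 : 0 < (1 - hx A ^ 2) * B 1 0 ^ 2 := mul_pos d1 (by positivity)
  have p2 : 0 < (1 - hx B ^ 2) * A 1 0 ^ 2 := mul_pos d2 (by positivity)
  have p3 := sq_nonneg ((A 0 0 - A 1 1) / 2 * B 1 0 - (B 0 0 - B 1 1) / 2 * A 1 0)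
  linarith

theorem st_T2 : ST_T2 := by
  intro A B hA hB h1 h2
  have h := t2_sign (t2_key hA hB h1 h2)
  refine ⟨h.1.trans ⟨fun h => by linarith, fun h => by linarith⟩,
    h.2.trans ⟨fun h => by linarith, fun h => by linarith⟩⟩

/-! ### T5 -/

theorem t5_inv {A : Matrix (Fin 2) (Fin 2) ℝ} (hA : A.det = 1) : A⁻¹ = A.adjugate := by
  rw [Matrix.inv_def, hA]
  simp

theorem t5_hx {A : Matrix (Fin 2) (Fin 2) ℝ} (hA : A.det = 1) : hx A⁻¹ = hx A := by
  rw [t5_inv hA]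
  unfold hx
  rw [Matrix.adjugate_fin_two]
  simp only [Matrix.trace_fin_two, Matrix.of_apply, Matrix.cons_val', Matrix.cons_val_zero,
    Matrix.cons_val_one]
  simp
  ring

theorem t5_clamp (x : ℝ) : -1 ≤ clamp x ∧ clamp x ≤ 1 ∧ (|x| ≤ 1 → clamp x = x) ∧
    (1 ≤ x → clamp x = 1) ∧ (x ≤ -1 → clamp x = -1) := by
  unfold clamp
  refine ⟨le_max_left _ _, max_le (by norm_num) (min_le_left _ _), ?_, ?_, ?_⟩
  · intro h
    rw [abs_le] at h
    rw [min_eq_right h.2, max_eq_right h.1]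
  · intro h
    rw [min_eq_left h]
    norm_num
  · intro h
    rw [min_eq_right (by linarith), max_eq_left h]

theorem t5_re (A : Matrix (Fin 2) (Fin 2) ℝ) : (ph A).re = clamp (hx A) := by
  unfold ph
  simp

theorem t5_im (A : Matrix (Fin 2) (Fin 2) ℝ) : (ph A).im =
    ((SignType.sign (A 1 0) : SignType) : ℝ) * Real.sqrt (1 - clamp (hx A) ^ 2) := by
  unfold ph
  simp

/-- hyperbolic matrices have real phase -/
theorem t5_hyp {A : Matrix (Fin 2) (Fin 2) ℝ} (h : 1 ≤ |hx A|) : (ph A).im = 0 := by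
  rw [t5_im]
  obtain ⟨c1, c2, c3, c4, c5⟩ := t5_clamp (hx A)
  have : clamp (hx A) ^ 2 = 1 := by
    rcases le_abs.1 h with h | h
    · rw [c4 h]
      norm_num
    · rw [c5 (by linarith)]
      norm_num
  rw [this]
  simp

theorem t5_sq (A : Matrix (Fin 2) (Fin 2) ℝ) (hA : A.det = 1) :
    (ph A).re ^ 2 + (ph A).im ^ 2 = 1 := by
  obtain ⟨c1, c2, c3, c4, c5⟩ := t5_clamp (hx A)
  rcases le_or_gt 1 |hx A| with h | h
  · rw [t5_hyp h, t5_re]
    rcases le_abs.1 h with h | h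
    · rw [c4 h]
      norm_num
    · rw [c5 (by linarith)]
      norm_num
  · rw [t5_re, t5_im, mul_pow, Real.sq_sqrt (by nlinarith)]
    have hs : ((SignType.sign (A 1 0) : SignType) : ℝ) ^ 2 = 1 := by
      rcases lt_or_gt_of_ne (t2_ne hA h) with h0 | h0
      · rw [sign_neg h0]
        norm_num
      · rw [sign_pos h0]
        norm_num
    rw [hs]
    ring

theorem t5_norm (A : Matrix (Fin 2) (Fin 2) ℝ) (hA : A.det = 1) : ‖ph A‖ = 1 := by
  have h := t5_sq A hA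
  have h2 : ‖ph A‖ ^ 2 = 1 := by
    rw [Complex.sq_norm, Complex.normSq_apply]
    linarith
  nlinarith [norm_nonneg (ph A)]

theorem st_T5 : ST_T5 := by
  intro A B hA hB
  have e10 : A⁻¹ 1 0 = -A 1 0 := by
    rw [t5_inv hA, Matrix.adjugate_fin_two]
    simp
  have hB' : B * B⁻¹ = 1 := Matrix.mul_nonsing_inv _ (by rw [hB]; exact isUnit_one)
  have hA' : A⁻¹ * A = 1 := Matrix.nonsing_inv_mul _ (by rw [hA]; exact isUnit_one)
  refine ⟨?_, t5_norm A hA, ?_, ?_, ?_⟩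
  · apply Complex.ext
    · rw [Complex.conj_re, t5_re, t5_re, t5_hx hA]
    · rw [Complex.conj_im, t5_im, t5_im, t5_hx hA, e10, Left.sign_neg]
      push_cast
      ring
  · unfold frick
    rw [Matrix.mul_assoc, hB', Matrix.mul_one, t5_hx hB]
    ring
  · unfold frick
    rw [← Matrix.mul_assoc, hA', Matrix.one_mul, t5_hx hA]
    ring
  · rw [Matrix.det_nonsing_inv, hA]
    simp

end Pool.Agent.Helper36.CV
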