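import Pool.Agent.Helper91.CV.T1

/-!
# CV, modules T7, D1
-/

set_option autoImplicit false

namespace Pool.Agent.Helper36.CV

open Complex

theorem st_T7 (hT1 : ST_T1) (hT3 : ST_T3) : ST_T7 := by
  intro l hl0 hl n E h0 h1 h2
  have hx' : ∀ m, hx (M l E m) = X l m E := by
    intro m
    unfold hx
    rw [(hT1 l E m).2.1]
    ring
  have d : ∀ m, (M l E m).det = 1 := fun m => (hT1 l E m).2.2.1
  have hf : frick (M l E n) (M l E (n + 1)) = l ^ 2 / 4 := (hT1 l E n).2.2.2
  have hl2 : l ^ 2 ≤ (1 / 100) ^ 2 := by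
    rw [← sq_abs l]
    gcongr
  have h3 := hT3 (M l E n) (M l E (n + 1)) (d n) (d (n + 1)) (by rw [hf]; positivity)
    (by rw [hf]; linarith)
  rw [hf] at h3
  have e : M l E (n + 2) = M l E n * M l E (n + 1) := by rw [M]
  have i0 : (ph (M l E n)).im = 0 := t5_hyp (by rw [hx']; exact h0)
  have i1 : (ph (M l E (n + 1))).im = 0 := t5_hyp (by rw [hx']; exact h1)
  have i2 : (ph (M l E (n + 2))).im = 0 := t5_hyp (by rw [hx']; exact h2)
  rw [← e] at h3
  have hs : Real.sqrt (l ^ 2 / 4) < 1 := by
    rw [Real.sqrt_lt' one_pos]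
    linarith
  unfold D
  rw [Complex.arg_eq_zero_iff]
  refine ⟨by linarith, ?_⟩
  simp [Complex.mul_im, Complex.mul_re, i0, i1, i2]

/-! ### D1 -/

theorem d1_s5 : Real.sqrt 5 * Real.sqrt 5 = 5 := Real.mul_self_sqrt (by norm_num)

theorem d1_gp : gam * phi = 1 := by
  unfold gam phi
  linarith [d1_s5]

theorem d1_pg : phi = 1 + gam := by
  unfold gam phi
  ring

theorem d1_s : Real.sqrt 5 = phi + gam := by
  unfold gam phi
  ring

theorem d1_rr (l E : ℝ) (a b : ℤ) (n : ℕ) :
    rr l a b (n + 2) E = rr l a b (n + 1) E + rr l a b n E + D l n E / Real.pi := by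
  unfold rr
  rw [Th, pp]
  push_cast
  ring

theorem d1_r0 (l E : ℝ) (a b : ℤ) : rr l a b 0 E = -b := by
  unfold rr
  rw [Th, pp]
  simp

theorem st_D1 : ST_D1 := by
  intro l E a b n
  have hp := d1_pg
  have hg := d1_gp
  rw [hp] at hg
  have A1 : ∀ n, aa l a b (n + 1) E = phi * aa l a b n E + D l n E / Real.pi := by
    intro n
    unfold aa
    rw [show n + 1 + 1 = n + 2 from rfl, d1_rr, hp]
    linear_combination -rr l a b n E * hg
  have B1 : ∀ n, bb l a b (n + 1) E = -gam * bb l a b n E + D l n E / Real.pi := by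
    intro n
    unfold bb
    rw [show n + 1 + 1 = n + 2 from rfl, d1_rr, hp]
    linear_combination -rr l a b n E * hg
  refine ⟨A1 n, B1 n, ?_, ?_, ?_⟩
  · unfold aa bb
    rw [d1_s]
    ring
  · unfold aa bb
    rw [d1_s, hp]
    ring
  · induction n with
    | zero =>
      unfold WS bb aa
      rw [d1_r0, d1_s]
      simp
      ring
    | succ n ih =>
      rw [B1 n]
      have hW : WS l (n + 1) E = WS l n E +
          (1 / Real.pi) * ((gam ^ (n + 1) - (-phi) ^ (n + 1)) * D l n E) := by
        unfold WS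
        rw [Finset.sum_range_succ]
        ring
      have hgp : (-gam) ^ (n + 1) * (-phi) ^ (n + 1) = 1 := by
        rw [← mul_pow]
        have : -gam * -phi = 1 := by
          rw [neg_mul_neg]
          exact d1_gp
        rw [this, one_pow]
      have hg2 : gam ^ (n + 1) * phi = gam ^ n := by
        rw [pow_succ, mul_assoc, d1_gp, mul_one]
      rw [hW, A1 n]
      have e1 : -gam * bb l a b n E = (-gam) ^ (n + 1) * (Real.sqrt 5 * b +
          gam ^ n * aa l a b n E - WS l n E) := by
        rw [pow_succ]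
        linear_combination -gam * ih
      rw [e1]
      linear_combination -(D l n E / Real.pi) * hgp -
        (-gam) ^ (n + 1) * aa l a b n E * hg2

end Pool.Agent.Helper36.CV
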