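import Pool.Agent.Helper91.CV.R14a

/-!
# R14: the label difference of the pair is a unit; positions
-/

set_option autoImplicit false

namespace Pool.Agent.Helper36.CV

open MeasureTheory Set

theorem st_R14 (h0 : ST_R0) (h2 : ST_R2) (h3 : ST_R3) (h4 : ST_R4) (h11 : ST_R11) (hL2 : ST_L2)
    (hL3 : ST_L3) (hN0 : ST_N0) (hQ4 : ST_Q4) : ST_R14 := by
  intro cK hcK
  obtain ⟨e0, he0, H0⟩ := h0
  obtain ⟨e2, he2, H2⟩ := h2 cK hcK
  obtain ⟨e3, he3, H3⟩ := h3 cK hcK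
  obtain ⟨K4, e4, hK4, he4, H4⟩ := h4
  obtain ⟨e11, he11, H11⟩ := h11 cK hcK
  obtain ⟨d1, hd1, D1⟩ := r14_pow (1 / 3) (1 / 1000) (by norm_num) (by norm_num)
  obtain ⟨d2, hd2, D2⟩ := r14_pow (14 / 100) (1 / 100) (by norm_num) (by norm_num)
  obtain ⟨d3, hd3, D3⟩ := r14_pow (1 / 5) (1 / (12 * K4)) (by norm_num) (by positivity)
  obtain ⟨d4, hd4, D4⟩ := r14_pow (16 / 100) (1 / 2) (by norm_num) (by norm_num)
  obtain ⟨d5, hd5, D5⟩ := r14_pow (59 / 100) (1 / 100) (by norm_num) (by norm_num)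
  obtain ⟨d6, hd6, D6⟩ := r14_pow (2 / 3) (1 / 1000) (by norm_num) (by norm_num)
  refine ⟨500 + 3 * K4, min (min (min e0 e2) (min e3 e4)) (min (min e11 (min d1 d2))
    (min (min d3 d4) (min (min d5 d6) (min (1 / 10 ^ 9) (1 / cK))))), by linarith, ?_, ?_⟩
  · have : 0 < 1 / cK := by positivity
    positivity
  intro ε Hm Hp C cd hpar hε x ρ D τ0 l r l0 r0 l1 r1 l2 r2 k0 s0 k1 s1 k2 s2 V0 VL VR P0 c ci
  simp only [le_min_iff] at hε
  obtain ⟨⟨⟨i1, i2⟩, i3, i4⟩, ⟨i5, i6, i7⟩, ⟨i8, i9⟩, ⟨i10, i11⟩, i12, i13⟩ := hε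
  have hε0 : 0 < ε := hpar.1
  norm_num at i12
  have hcε : cK * ε ≤ 1 := by
    rw [le_div_iff₀ (by linarith)] at i13
    linarith
  have j1 := D1 ε hε0 i6
  have j2 := D2 ε hε0 i7
  have j3 := D3 ε hε0 i8
  have j4 := D4 ε hε0 i9
  have j5 := D5 ε hε0 i10
  have j6 := D6 ε hε0 i11
  have j7 := r14_pw K4 ε hK4 hε0 j3 j4
  have hρ : 0 < ρ := by
    rw [ci.hρ]
    have := ci.pair.kids.lt
    linarith
  have hερ : 0 < ε * ρ := mul_pos hε0 hρ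
  have hY : 0 < Yf cd x ρ := cd.im_pos _ (by simpa using hρ)
  -- the inputs
  obtain ⟨q1, -, q3, q4, q5, -, -, -, -, -, q11⟩ := H11 ε Hm Hp C cd hpar i5 τ0 l r l0 r0 l1 r1 l2 r2
    k0 s0 k1 s1 k2 s2 V0 ci.c1 x ρ D ci.hx ci.hρ ci.law.dD
  have R3 := H3 ε Hm Hp C cd hpar i3 1 l2 r2 k0 s0 k1 s1 k2 s2 VL VR ci.pair
  rw [← ci.hx, ← ci.hρ] at R3
  obtain ⟨R3a, R3b, R3c, R3d, R3e, R3f⟩ := R3
  have R2 := H2 ε Hm Hp C cd hpar i2 1 l2 r2 k0 s0 k1 s1 k2 s2 VL VR ci.pair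
  rw [← ci.hx, ← ci.hρ] at R2
  obtain ⟨R2a, R2b, R2c, -, -, R2f⟩ := R2
  obtain ⟨-, Q4b, -, -⟩ := hQ4 ε Hm Hp C cd hpar (by norm_num; linarith)
  have one := fun V : Gap cd => fun hlaw => r14_one K4 hK4 hε0
    (show ε ≤ 1 / 10 ^ 5 by norm_num; linarith) hρ hlaw ci.law j5 j7 V
    (H4 ε Hm Hp C cd hpar i4 x ρ V hρ R3b)
  clear H2 H3 H4 H11 D1 D2 D3 D4 D5 D6
  -- D > 1.4 ρ
  have hD : 7 / 5 * ρ < D := by
    have := R3a V0 q11
    unfold Gap.dist at this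
    have hlt := V0.lt
    have hdD := ci.law.dD
    rcases lt_max_iff.mp this with h | h
    · linarith
    · rcases lt_max_iff.mp h with h | h
      · linarith
      · linarith
  -- h
  obtain ⟨h, hh⟩ : ∃ h, h = V0.s / 2 := ⟨_, rfl⟩
  have hV0s : V0.s = 2 * h := by rw [hh]; ring
  have k1' : ρ ≤ 23 / 10 * (ε * h) := by rw [hV0s] at q5; linarith
  have k2' : ε * h ≤ 3 / 5 * ρ := by
    rw [hV0s] at q4
    have hpos : 0 ≤ ε * h := by linarith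
    have : (1 - 31 * (1 / 1000)) * (ε * (2 * h)) ≤ (1 - 31 * ε ^ (2 / 3 : ℝ)) * (ε * (2 * h)) :=
      mul_le_mul_of_nonneg_right (by linarith) (by linarith)
    linarith
  have k3' : D ≤ h / 5 := by
    rw [le_div_iff₀ (by linarith)] at q3
    have : ε * (16 * D) ≤ ε * (23 / 10 * h) := by linarith
    have := le_of_mul_le_mul_left this hε0
    linarith
  have k4' : 1000 * ρ ≤ h := by
    have h1 : ε * (1000 * ρ) ≤ ε * h := by
      have : ε * ρ ≤ 1 / 1000000000 * ρ := mul_le_mul_of_nonneg_right i12 hρ.le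
      linarith
    exact le_of_mul_le_mul_left h1 hε0
  have hh0 : 0 < h := by linarith
  have k5' : |c| * h ≤ 1 / 100 := by
    have hcc := ci.law.cc
    have h1 : ε ^ (114 / 100 : ℝ) = ε * ε ^ (14 / 100 : ℝ) := by
      rw [show (114 / 100 : ℝ) = 1 + 14 / 100 by norm_num, Real.rpow_add hε0, Real.rpow_one]
    have h2' : ε * (|c| * h) ≤ 3 / 5 * (|c| * ρ) := by
      have := mul_le_mul_of_nonneg_left k2' (abs_nonneg c)
      linarith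
    have h3' : ε * (|c| * h) ≤ ε * (1 / 100) := by
      have := mul_le_mul_of_nonneg_left j2 hε0.le
      linarith
    exact le_of_mul_le_mul_left h3' hε0
  -- the kids
  have kk := ci.pair.kids
  obtain ⟨m1, m2⟩ := abs_le.mp kk.n0
  obtain ⟨m3, m4⟩ := abs_le.mp kk.n2
  rw [← ci.hρ] at m1 m2 m3 m4
  have hc3 : cK * ε ^ 3 * ρ ≤ ε * (ε * ρ) := by
    have : cK * ε ^ 3 * ρ = (cK * ε) * (ε * (ε * ρ)) := by ring
    rw [this]
    have := mul_le_mul_of_nonneg_right hcε (show 0 ≤ ε * (ε * ρ) by positivity)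
    linarith
  have n1 : ε * (1 + 2 * ε * 1) * ρ = ε * ρ + 2 * (ε * (ε * ρ)) := by ring
  have n2 : ε * (1 - 2 * ε * 1) * ρ = ε * ρ - 2 * (ε * (ε * ρ)) := by ring
  have hee : 0 < ε * (ε * ρ) := by positivity
  have hee2 : ε * (ε * ρ) ≤ 1 / 1000000000 * (ε * ρ) :=
    mul_le_mul_of_nonneg_right i12 hερ.le
  have L1 : ε * ρ ≤ s0 - k0 := by linarith
  have L2 : s0 - k0 ≤ ε * ρ + 3 * (ε * (ε * ρ)) := by linarith
  have L3 : ε * ρ - 3 * (ε * (ε * ρ)) ≤ s2 - k2 := by linarith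
  have L4 : s2 - k2 ≤ ε * ρ := by linarith
  have L5 := kk.e0
  have L6 := kk.e2
  have hxx := ci.hx
  have hρρ := ci.hρ
  have L7 : (k0 + s0) / 2 = x - ρ / 2 + (s0 - k0) / 2 := by rw [hxx, hρρ, L5]; ring
  have L8 : (k2 + s2) / 2 = x + ρ / 2 - (s2 - k2) / 2 := by rw [hxx, hρρ, L6]; ring
  obtain ⟨wL1, -, -, wL4, wL5, -⟩ := (H0 ε VL.a VL.b k0 s0 hε0 i1 VL.lt (by linarith)).2 ci.pair.wL
  obtain ⟨wR1, -, -, wR4, wR5, -⟩ := (H0 ε VR.a VR.b k2 s2 hε0 i1 VR.lt (by linarith)).2 ci.pair.wR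
  change _ ≤ VL.s at wL1
  change _ ≤ VR.s at wR1
  change VL.s < _ → |VL.c - _| ≤ (VL.s - _) / 2 + _ at wL4 wL5
  change VR.s < _ → |VR.c - _| ≤ (VR.s - _) / 2 + _ at wR4 wR5
  have hsL : (1 - 6 * ε) * (ε * ρ) ≤ VL.s := by
    have : (1 - 26 / 10 * ε) * (ε * ρ) ≤ (1 - 26 / 10 * ε) * (s0 - k0) :=
      mul_le_mul_of_nonneg_left L1 (by linarith)
    linarith
  have hsR : (1 - 6 * ε) * (ε * ρ) ≤ VR.s := by
    have h1 : (1 - 26 / 10 * ε) * (ε * ρ - 3 * (ε * (ε * ρ))) ≤ (1 - 26 / 10 * ε) * (s2 - k2) :=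
      mul_le_mul_of_nonneg_left L3 (by linarith)
    have h2 : 0 ≤ ε * (ε * (ε * ρ)) := by positivity
    linarith
  have hsL0 : 0 < VL.s := by have := VL.lt; unfold Gap.s; linarith
  have hsR0 : 0 < VR.s := by have := VR.lt; unfold Gap.s; linarith
  have hpL : |VL.c - (k0 + s0) / 2| ≤ ρ / 1000 := by
    have := mul_le_mul_of_nonneg_right j1 hρ.le
    linarith
  have hpR : |VR.c - (k2 + s2) / 2| ≤ ρ / 1000 := by
    have := mul_le_mul_of_nonneg_right j1 hρ.le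
    linarith
  have hερ2 : ε * ρ ≤ 1 / 1000000000 * ρ := mul_le_mul_of_nonneg_right i12 hρ.le
  have hXL : |VL.c - x + ρ / 2| ≤ ρ / 100 := by
    obtain ⟨u1, u2⟩ := abs_le.mp hpL
    exact abs_le.mpr ⟨by linarith, by linarith⟩
  have hXR : |VR.c - x - ρ / 2| ≤ ρ / 100 := by
    obtain ⟨u1, u2⟩ := abs_le.mp hpR
    exact abs_le.mpr ⟨by linarith, by linarith⟩
  have hcL : |VL.c - x| ≤ 51 / 100 * ρ := by
    obtain ⟨u1, u2⟩ := abs_le.mp hXL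
    exact abs_le.mpr ⟨by linarith, by linarith⟩
  have hcR : |VR.c - x| ≤ 51 / 100 * ρ := by
    obtain ⟨u1, u2⟩ := abs_le.mp hXR
    exact abs_le.mpr ⟨by linarith, by linarith⟩
  obtain ⟨oL1, oL2, oL3⟩ := one VL hD hcL R3c hsL
  obtain ⟨oR1, oR2, oR3⟩ := one VR hD hcR R3d hsR
  clear one
  rw [← hh] at oL2 oL3 oR2 oR3
  -- the slopes
  have eL : VL.c - V0.c = h + D + (VL.c - x) := by
    rw [ci.law.dD, hh]; unfold Gap.c Gap.s; ring
  have eR : VR.c - V0.c = h + D + (VR.c - x) := by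
    rw [ci.law.dD, hh]; unfold Gap.c Gap.s; ring
  obtain ⟨sl1, sl2, sl3, sl4, sl5, sl6⟩ := r14_slope hL2 hL3 h (VL.c - V0.c) (VR.c - V0.c) _ _ c
    (VL.c - x) (VR.c - x) ρ D _ _ _ _ hρ hD k3' k4' hXL hXR eL eR k5' rfl rfl rfl rfl rfl rfl
  generalize hWL : Real.sqrt ((VL.c - V0.c) ^ 2 - h ^ 2) * (1 + c * (VL.c - x)) = WL at *
  generalize hWR : Real.sqrt ((VR.c - V0.c) ^ 2 - h ^ 2) * (1 + c * (VR.c - x)) = WR at *
  generalize hDL : (VL.c - V0.c) / Real.sqrt ((VL.c - V0.c) ^ 2 - h ^ 2) * (1 + c * (VL.c - x)) +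
    c * Real.sqrt ((VL.c - V0.c) ^ 2 - h ^ 2) = DL at *
  generalize hDR : (VR.c - V0.c) / Real.sqrt ((VR.c - V0.c) ^ 2 - h ^ 2) * (1 + c * (VR.c - x)) +
    c * Real.sqrt ((VR.c - V0.c) ^ 2 - h ^ 2) = DR at *
  clear hWL hWR hDL hDR
  rw [show VR.c - V0.c - (VL.c - V0.c) = VR.c - VL.c by ring] at sl4 sl5 sl6
  obtain ⟨d, hd⟩ : ∃ d, d = VR.c - VL.c := ⟨_, rfl⟩
  rw [← hd] at sl4 sl5 sl6
  obtain ⟨p, hp⟩ : ∃ p, p = VR.N - VL.N := ⟨_, rfl⟩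
  rw [← hp] at R2b R2c
  have hp0 : 0 < p := by linarith
  have hd1 : d ≤ 51 / 50 * ρ := by
    obtain ⟨u1, u2⟩ := abs_le.mp hcL
    obtain ⟨u3, u4⟩ := abs_le.mp hcR
    linarith
  have hd0 : 0 < d := by
    obtain ⟨u1, u2⟩ := abs_le.mp hXL
    obtain ⟨u3, u4⟩ := abs_le.mp hXR
    linarith
  have hεY : ε * Yf cd x ρ ≤ 4 * (ε * p) := by
    have := mul_le_mul_of_nonneg_left R2b hε0.le
    linarith
  have hpw : |p - P0 * (WR - WL)| ≤ 8 * ε * p := by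
    obtain ⟨u1, u2⟩ := abs_le.mp oL2
    obtain ⟨u3, u4⟩ := abs_le.mp oR2
    exact abs_le.mpr ⟨by linarith, by linarith⟩
  have hYρ : 3 * ε * Yf cd x ρ / ρ ≤ 12 * ε * p / ρ := by
    apply div_le_div_of_nonneg_right _ hρ.le
    linarith
  obtain ⟨kL0, kL1⟩ := r14_law P0 (WR - WL) DL d ρ p ε VL.kk ci.law.p0 sl3 sl1 hρ (by
    have := mul_pos hd0 sl1
    linarith) (by linarith) hp0 hε0.le (by linarith) hpw (by linarith)
  obtain ⟨kR0, kR1⟩ := r14_law P0 (WR - WL) DR d ρ p ε VR.kk ci.law.p0 sl3 sl2 hρ (by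
    have := mul_pos hd0 sl2
    linarith) (by linarith) hp0 hε0.le (by linarith) hpw (by linarith)
  obtain ⟨aL, haL⟩ : ∃ aL, aL = p / VL.kk / ρ := ⟨_, rfl⟩
  obtain ⟨aR, haR⟩ : ∃ aR, aR = p / VR.kk / ρ := ⟨_, rfl⟩
  obtain ⟨tL, htL⟩ : ∃ tL, tL = VL.s / (ε * ρ) := ⟨_, rfl⟩
  obtain ⟨tR, htR⟩ : ∃ tR, tR = VR.s / (ε * ρ) := ⟨_, rfl⟩
  have aL0 : 0 < aL := by rw [haL]; positivity
  have aR0 : 0 < aR := by rw [haR]; positivity
  have tL0 : 1 - 6 * ε ≤ tL := by rw [htL, le_div_iff₀ hερ]; exact hsL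
  have tR0 : 1 - 6 * ε ≤ tR := by rw [htR, le_div_iff₀ hερ]; exact hsR
  have wdL : (WR - WL) / DL ≤ 13 / 10 * d := by rw [div_le_iff₀ sl1]; exact sl5
  have wdR : (WR - WL) / DR ≤ 13 / 10 * d := by rw [div_le_iff₀ sl2]; exact sl6
  have hdd : (1 + 100 * ε) * (13 / 10 * d) ≤ 1001 / 1000 * (13 / 10 * (51 / 50 * ρ)) :=
    mul_le_mul (by linarith) (by linarith) (by positivity) (by norm_num)
  have aL1 : aL ≤ 7 / 5 := by
    rw [haL, div_le_iff₀ hρ]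
    have : (1 + 100 * ε) * ((WR - WL) / DL) ≤ (1 + 100 * ε) * (13 / 10 * d) :=
      mul_le_mul_of_nonneg_left wdL (by linarith)
    linarith
  have aR1 : aR ≤ 7 / 5 := by
    rw [haR, div_le_iff₀ hρ]
    have : (1 + 100 * ε) * ((WR - WL) / DR) ≤ (1 + 100 * ε) * (13 / 10 * d) :=
      mul_le_mul_of_nonneg_left wdR (by linarith)
    linarith
  have asum : aL + aR ≤ (1 + 100 * ε) * (2 * d) / ρ := by
    rw [haL, haR, ← add_div]
    apply div_le_div_of_nonneg_right _ hρ.le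
    have e : (WR - WL) * (1 / DL + 1 / DR) = (WR - WL) / DL + (WR - WL) / DR := by ring
    rw [e] at sl4
    have := mul_le_mul_of_nonneg_left sl4 (show 0 ≤ 1 + 100 * ε by linarith)
    linarith
  have muL := r14_mu p |VL.mu| VL.kk VL.s ε ρ hp0 kL0 hsL0 hε0 hρ (Q4b VL)
  have muR := r14_mu p |VR.mu| VR.kk VR.s ε ρ hp0 kR0 hsR0 hε0 hρ (Q4b VR)
  rw [← haL, ← htL] at muL
  rw [← haR, ← htR] at muR
  clear kL1 kR1 sl1 sl2 sl3 sl4 sl5 sl6 wdL wdR hdd hpw hYρ oL2 oL3 oR2 oR3 eL eR hcL hcR hXL hXR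
  clear k1' k2' k3' k4' k5' hD q1 q3 q4 q5 q11 R3a R3b
  have hp3 : p ≤ ε := by
    have h1 : ε * ε ≤ 1 / 1000000000 * ε := mul_le_mul_of_nonneg_right i12 hε0.le
    have h2 : ε * (ε * ε) ≤ 1 / 1000000000 * (ε * ε) :=
      mul_le_mul_of_nonneg_right i12 (by positivity)
    have h3 : ε ^ 3 = ε * (ε * ε) := by ring
    linarith
  have hp2 : p ^ 2 ≤ ε := by
    have : p * p ≤ 1 * ε := mul_le_mul (by linarith) hp3 hp0.le (by norm_num)
    rw [pow_two]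
    linarith
  -- the norm
  obtain ⟨-, N2, N3, -, -, N6, -, -, -⟩ := hN0
  obtain ⟨π, hπ⟩ : ∃ π : ℤ × ℤ, π = (VR.n - VL.n, VR.m - VL.m) := ⟨_, rfl⟩
  have zv1 : zv π = p := by
    rw [hπ, hp]
    unfold zv Gap.N
    push_cast
    ring
  have zc1 : zc π = p - (VR.mu - VL.mu) := by
    have u1 := (N6 cd VL).2
    have u2 := (N6 cd VR).2
    have u3 : zc π = zc (VR.n, VR.m) - zc (VL.n, VL.m) := by
      rw [hπ]
      unfold zc
      push_cast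
      ring
    rw [u3, ← u1, ← u2, hp]
    ring
  have zn1 : (zn π : ℝ) = p * (p - (VR.mu - VL.mu)) := by rw [← N2 π, zv1, zc1]
  have znle : |(zn π : ℝ)| ≤ p ^ 2 + p * |VL.mu| + p * |VR.mu| := by
    rw [zn1, abs_mul, abs_of_pos hp0]
    have u1 : |p - (VR.mu - VL.mu)| ≤ p + |VL.mu| + |VR.mu| := by
      have u2 := neg_abs_le VL.mu
      have u3 := le_abs_self VL.mu
      have u4 := neg_abs_le VR.mu
      have u5 := le_abs_self VR.mu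
      exact abs_le.mpr ⟨by linarith, by linarith⟩
    have := mul_le_mul_of_nonneg_left u1 hp0.le
    linarith
  have zn0 : zn π ≠ 0 := by
    intro hz
    have h1 := N3 π hz
    rw [h1] at zv1
    have h2 : zv (0 : ℤ × ℤ) = 0 := by unfold zv; simp
    linarith
  have tLp : 0 < tL := by linarith
  have tRp : 0 < tR := by linarith
  have bL : aL / tL ≤ 141 / 100 := by rw [div_le_iff₀ tLp]; linarith
  have bR : aR / tR ≤ 141 / 100 := by rw [div_le_iff₀ tRp]; linarith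
  have zn2 : |(zn π : ℝ)| < 2 := by
    have h1 : (1 + 98 * ε) / 2 * (aL / tL) ≤ (1 + 98 * ε) / 2 * (141 / 100) :=
      mul_le_mul_of_nonneg_left bL (by linarith)
    have h2 : (1 + 98 * ε) / 2 * (aR / tR) ≤ (1 + 98 * ε) / 2 * (141 / 100) :=
      mul_le_mul_of_nonneg_left bR (by linarith)
    linarith
  have znabs : |zn π| = 1 := by
    have h1 : |zn π| < 2 := by exact_mod_cast zn2
    have h2 : 0 < |zn π| := abs_pos.mpr zn0
    omega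
  have key : 1 ≤ ε + (1 + 98 * ε) / 2 * (aL / tL + aR / tR) := by
    have h1 : |(zn π : ℝ)| = 1 := by rw [← Int.cast_abs, znabs]; simp
    linarith
  have boot : ∀ δ : ℝ, 0 ≤ δ → δ ≤ 1 / 100 →
      |VL.c - (k0 + s0) / 2| + |VR.c - (k2 + s2) / 2| ≤ δ * ρ →
      VL.s ≤ (1 + 4 * δ + 820 * ε) * (ε * ρ) ∧ VR.s ≤ (1 + 4 * δ + 820 * ε) * (ε * ρ) := by
    intro δ hδ0 hδ1 hδ2
    have hdδ : d ≤ (1 + δ) * ρ := by
      have u1 := le_abs_self (VR.c - (k2 + s2) / 2)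
      have u2 := neg_abs_le (VL.c - (k0 + s0) / 2)
      linarith
    have hs : aL + aR ≤ 2 * (1 + δ) * (1 + 100 * ε) := by
      refine asum.trans ?_
      rw [div_le_iff₀ hρ]
      have := mul_le_mul_of_nonneg_left hdδ (show 0 ≤ 2 * (1 + 100 * ε) by linarith)
      linarith
    have b1 := r14_boot aL aR tL tR ε δ hε0 (by norm_num; linarith) hδ0 hδ1 hs aL0 aR0 aR1 tL0 tR0
      key
    have b2 := r14_boot aR aL tR tL ε δ hε0 (by norm_num; linarith) hδ0 hδ1 (by linarith) aR0 aL0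
      aL1 tR0 tL0 (by rw [add_comm (aR / tR)]; exact key)
    rw [htL, div_le_iff₀ hερ] at b1
    rw [htR, div_le_iff₀ hερ] at b2
    exact ⟨b1, b2⟩
  clear key zn2 znle zn1 zc1 zv1 bL bR muL muR asum aL1 aR1
  -- first round
  have x13 : 0 < ε ^ (1 / 3 : ℝ) := Real.rpow_pos_of_pos hε0 _
  have x23 : 0 < ε ^ (2 / 3 : ℝ) := Real.rpow_pos_of_pos hε0 _
  obtain ⟨f1, f2⟩ := boot (2 * ε ^ (1 / 3 : ℝ)) (by positivity) (by linarith) (by linarith)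
  have f3 : VL.s ≤ 101 / 100 * (ε * ρ) :=
    f1.trans (mul_le_mul_of_nonneg_right (by linarith) hερ.le)
  have f4 : VR.s ≤ 101 / 100 * (ε * ρ) :=
    f2.trans (mul_le_mul_of_nonneg_right (by linarith) hερ.le)
  have f5 := wL5 (by linarith)
  have f6 := wR5 (by linarith)
  -- second round
  obtain ⟨g1, g2⟩ := boot (24 / 100 * ε) (by positivity) (by linarith) (by linarith)
  have g3 : VL.s ≤ ε * ρ + 821 * (ε * (ε * ρ)) := by linarith
  have g4 : VR.s ≤ ε * ρ + 821 * (ε * (ε * ρ)) := by linarith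
  have hx : 1000 * ε ≤ ε ^ (2 / 3 : ℝ) := by
    have h1 : ε = ε ^ (1 / 3 : ℝ) * ε ^ (2 / 3 : ℝ) := by
      rw [← Real.rpow_add hε0, show (1 / 3 : ℝ) + 2 / 3 = 1 by norm_num, Real.rpow_one]
    have h2 : ε ^ (1 / 3 : ℝ) * ε ^ (2 / 3 : ℝ) ≤ 1 / 1000 * ε ^ (2 / 3 : ℝ) :=
      mul_le_mul_of_nonneg_right j1 x23.le
    linarith
  have hx2 : 1000 * (ε * (ε * ρ)) ≤ ε ^ (2 / 3 : ℝ) * (ε * ρ) := by
    have := mul_le_mul_of_nonneg_right hx hερ.le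
    linarith
  have g5 := wL4 (by
    have h1 : (1 + 30 * ε ^ (2 / 3 : ℝ)) * (ε * ρ) ≤ (1 + 30 * ε ^ (2 / 3 : ℝ)) * (s0 - k0) :=
      mul_le_mul_of_nonneg_left L1 (by linarith)
    linarith)
  have g6 := wR4 (by
    have h1 : (1 + 30 * ε ^ (2 / 3 : ℝ)) * (ε * ρ - 3 * (ε * (ε * ρ))) ≤
        (1 + 30 * ε ^ (2 / 3 : ℝ)) * (s2 - k2) :=
      mul_le_mul_of_nonneg_left L3 (by linarith)
    have h2 : ε ^ (2 / 3 : ℝ) * (ε * (ε * ρ)) ≤ 1 / 1000 * (ε * (ε * ρ)) :=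
      mul_le_mul_of_nonneg_right j6 hee.le
    linarith)
  have g7 : 13 / 10 * ε * (s0 - k0) ≤ 2 * (ε * (ε * ρ)) := by
    have h1 : ε * (s0 - k0) ≤ ε * (3 / 2 * (ε * ρ)) :=
      mul_le_mul_of_nonneg_left (by linarith) hε0.le
    linarith
  have g8 : 13 / 10 * ε * (s2 - k2) ≤ 2 * (ε * (ε * ρ)) := by
    have h1 : ε * (s2 - k2) ≤ ε * (ε * ρ) := mul_le_mul_of_nonneg_left L4 hε0.le
    linarith
  have hKe : 500 * (ε * (ε * ρ)) ≤ (500 + 3 * K4) * ε ^ 2 * ρ := by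
    have h1 : (500 + 3 * K4) * ε ^ 2 * ρ = 500 * (ε * (ε * ρ)) + 3 * (K4 * (ε * (ε * ρ))) := by
      ring
    have h2 : 0 < K4 * (ε * (ε * ρ)) := by positivity
    linarith
  have e65 : 0 < ε ^ (6 / 5 : ℝ) := Real.rpow_pos_of_pos hε0 _
  have hKn : 3 * K4 * ε ^ (6 / 5 : ℝ) * Yf cd x ρ ≤
      (500 + 3 * K4) * ε ^ (6 / 5 : ℝ) * Yf cd x ρ := by
    have : 0 < ε ^ (6 / 5 : ℝ) * Yf cd x ρ := mul_pos e65 hY
    linarith
  rw [hπ] at znabs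
  exact ⟨znabs, by linarith, by linarith, oL1.trans hKn, oR1.trans hKn⟩

end Pool.Agent.Helper36.CV
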