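import Pool.Agent.Helper36.CV.StmtsR

/-!
# R14: lemmas
-/

set_option autoImplicit false

namespace Pool.Agent.Helper36.CV

open MeasureTheory Set

theorem r14_pow (a c : ℝ) (ha : 0 < a) (hc : 0 < c) :
    ∃ δ : ℝ, 0 < δ ∧ ∀ e : ℝ, 0 < e → e ≤ δ → e ^ a ≤ c := by
  refine ⟨c ^ (1 / a), Real.rpow_pos_of_pos hc _, fun e h0 he => ?_⟩
  have h := Real.rpow_le_rpow h0.le he ha.le
  rwa [← Real.rpow_mul hc.le, one_div_mul_cancel ha.ne', Real.rpow_one] at h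

/-- slopes of the hyperbola -/
theorem r14_slope (hL2 : ST_L2) (hL3 : ST_L3) (h τL τR qL qR c XL XR ρ D WL WR DL DR : ℝ)
    (hρ : 0 < ρ) (hD : 7 / 5 * ρ < D) (hDh : D ≤ h / 5) (hh : 1000 * ρ ≤ h)
    (hXL : |XL + ρ / 2| ≤ ρ / 100) (hXR : |XR - ρ / 2| ≤ ρ / 100)
    (eL : τL = h + D + XL) (eR : τR = h + D + XR) (hc : |c| * h ≤ 1 / 100)
    (hqL : qL = Real.sqrt (τL ^ 2 - h ^ 2)) (hqR : qR = Real.sqrt (τR ^ 2 - h ^ 2))
    (hWL : WL = qL * (1 + c * XL)) (hWR : WR = qR * (1 + c * XR))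
    (hDL : DL = τL / qL * (1 + c * XL) + c * qL) (hDR : DR = τR / qR * (1 + c * XR) + c * qR) :
    0 < DL ∧ 0 < DR ∧ 0 < WR - WL ∧ (WR - WL) * (1 / DL + 1 / DR) ≤ 2 * (τR - τL) ∧
    WR - WL ≤ 13 / 10 * (τR - τL) * DL ∧ WR - WL ≤ 13 / 10 * (τR - τL) * DR := by
  obtain ⟨a1, a2⟩ := abs_le.mp hXL
  obtain ⟨b1, b2⟩ := abs_le.mp hXR
  have h0 : 0 < h := by linarith
  have h1 : h < τL := by linarith
  have h2 : τL < τR := by linarith
  have h3 : D ≤ 5 / 2 * (τL - h) := by rw [eL]; linarith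
  have h4 : τR - h ≤ 2 * D := by linarith
  have h5 : |XL| ≤ ρ := abs_le.mpr ⟨by linarith, by linarith⟩
  have h6 : |XR| ≤ ρ := abs_le.mpr ⟨by linarith, by linarith⟩
  have h7 : XR - XL = τR - τL := by linarith
  have h8 : ρ / 2 ≤ τR - τL := by linarith
  have hc0 := abs_nonneg c
  have hcD : |c| * D ≤ 1 / 500 := by
    have := mul_le_mul_of_nonneg_left hDh hc0
    linarith
  obtain ⟨p1, p2, p3, p4, p5, p6, p7, _, _, _⟩ := hL2 h τL τR qL qR c XL XR ρ D WL WR DL DR h0.le h1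
    h2 hqL hqR hρ (by linarith) h3 h4 h5 h6 h7 h8 (by linarith) hWL hWR hDL hDR
  have p8 := hL3 h τL τR qL qR c XL XR ρ D WL WR DL DR h0 h1 h2 hqL hqR hρ (by linarith) h3 h4 hDh
    h5 h6 h7 hc hWL hWR hDL hDR
  refine ⟨p1, p2, sub_pos.mpr p4, p8, ?_⟩
  have sL : 0 < τL ^ 2 - h ^ 2 := by
    rw [show τL ^ 2 - h ^ 2 = (τL - h) * (τL + h) by ring]
    exact mul_pos (by linarith) (by linarith)
  have sR : 0 < τR ^ 2 - h ^ 2 := by
    rw [show τR ^ 2 - h ^ 2 = (τR - h) * (τR + h) by ring]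
    exact mul_pos (by linarith) (by linarith)
  have qL0 : 0 < qL := by rw [hqL]; exact Real.sqrt_pos.mpr sL
  have qR0 : 0 < qR := by rw [hqR]; exact Real.sqrt_pos.mpr sR
  have eqL : qL ^ 2 = τL ^ 2 - h ^ 2 := by rw [hqL, Real.sq_sqrt sL.le]
  have eqR : qR ^ 2 = τR ^ 2 - h ^ 2 := by rw [hqR, Real.sq_sqrt sR.le]
  have key : (qR - qL) * (qR + qL) = (τR - τL) * (τR + τL) := by
    linear_combination eqR - eqL
  have hqq : 17 / 25 * qR ≤ qL := by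
    have h9 : (17 / 25 * qR) ^ 2 ≤ qL ^ 2 := by
      rw [mul_pow, eqR, eqL]
      have hB : 0 < τR - h := by linarith
      have hA : 93 / 200 * (τR - h) ≤ τL - h := by rw [eL, eR]; linarith
      have hC : 999 / 1000 * (τR + h) ≤ τL + h := by rw [eL, eR]; linarith
      have hT : 0 < τR + h := by linarith
      have hm := mul_le_mul hA hC (by positivity) (by linarith)
      have hm2 : 0 < (τR - h) * (τR + h) := mul_pos hB hT
      linarith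
    exact (pow_le_pow_iff_left₀ (by positivity) qL0.le two_ne_zero).mp h9
  have hd : 0 < τR - τL := by linarith
  have e3 : WR - WL ≤ 51 / 50 * (qR - qL) := by
    have := (abs_le.mp p5).2
    have hq : 0 < qR - qL := by
      have h9 : 0 < (qR - qL) * (qR + qL) := by
        rw [key]
        exact mul_pos hd (by linarith)
      exact (pos_iff_pos_of_mul_pos h9).mpr (by linarith)
    have h10 : 10 * |c| * D * (qR - qL) ≤ 1 / 50 * (qR - qL) :=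
      mul_le_mul_of_nonneg_right (by linarith) hq.le
    linarith
  have gen : ∀ q τ Dv : ℝ, 0 < q → q ≤ qR → τL ≤ τ → |Dv - τ / q| ≤ 10 * |c| * D * (τ / q) →
      WR - WL ≤ 13 / 10 * (τR - τL) * Dv := by
    intro q τ Dv hq hqR' hτ hDv
    have hτ0 : 0 < τ := by linarith
    have e1 : (qR - qL) * q ≤ 6 / 5 * (τR - τL) * τ := by
      have f1 : q ≤ 25 / 42 * (qR + qL) := by linarith
      have f2 : τR + τL ≤ 1001 / 500 * τ := by linarith
      have f3 : (τR + τL) * q ≤ 1001 / 500 * τ * (25 / 42 * (qR + qL)) :=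
        mul_le_mul f2 f1 hq.le (by positivity)
      have f4 : (qR - qL) * q * (qR + qL) ≤ 6 / 5 * (τR - τL) * τ * (qR + qL) := by
        have f5 : (qR - qL) * q * (qR + qL) = (τR - τL) * ((τR + τL) * q) := by
          linear_combination q * key
        have f6 : 0 < τ * (qR + qL) := mul_pos hτ0 (by linarith)
        have f7 := mul_le_mul_of_nonneg_left f3 hd.le
        have f8 : 0 < (τR - τL) * (τ * (qR + qL)) := mul_pos hd f6
        rw [f5]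
        linarith
      exact le_of_mul_le_mul_right f4 (by linarith)
    have e2 : qR - qL ≤ 6 / 5 * (τR - τL) * (τ / q) := by
      rw [← mul_div_assoc, le_div_iff₀ hq]
      exact e1
    have hr : 0 < τ / q := div_pos hτ0 hq
    have e4 : 49 / 50 * (τ / q) ≤ Dv := by
      have := (abs_le.mp hDv).1
      have h10 : 10 * |c| * D * (τ / q) ≤ 1 / 50 * (τ / q) :=
        mul_le_mul_of_nonneg_right (by linarith) hr.le
      linarith
    have e5 := mul_le_mul_of_nonneg_left e4 hd.le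
    have e6 : 0 < (τR - τL) * (τ / q) := mul_pos hd hr
    linarith
  exact ⟨gen qL τL DL qL0 (by
    have h9 : 0 < (qR - qL) * (qR + qL) := by
      rw [key]
      exact mul_pos hd (by linarith)
    have := (pos_iff_pos_of_mul_pos h9).mpr (by linarith)
    linarith) le_rfl p6, gen qR τR DR qR0 le_rfl h2.le p7⟩

theorem r14_law (P0 w Dv d ρ p η kk : ℝ) (hP : 0 < P0) (hw : 0 < w) (hDv : 0 < Dv) (hρ : 0 < ρ)
    (h1 : w ≤ 2 * d * Dv) (hd : d ≤ 11 / 10 * ρ) (hp : 0 < p) (hη : 0 ≤ η) (hη2 : η ≤ 1 / 100)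
    (h2 : |p - P0 * w| ≤ 8 * η * p) (h3 : P0 * Dv - 12 * η * p / ρ ≤ kk) :
    0 < kk ∧ p / kk ≤ (1 + 100 * η) * (w / Dv) := by
  have a1 : (1 - 8 * η) * p ≤ P0 * w := by
    have := (abs_le.mp h2).2
    linarith
  have hPD : 0 < P0 * Dv := mul_pos hP hDv
  have a2 : P0 * w ≤ 11 / 5 * ρ * (P0 * Dv) := by
    have b1 := mul_le_mul_of_nonneg_left h1 hP.le
    have b2 := mul_le_mul_of_nonneg_right hd hPD.le
    linarith
  have a3 : p ≤ 3 * ρ * (P0 * Dv) := by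
    have b1 : 23 / 25 * p ≤ (1 - 8 * η) * p := mul_le_mul_of_nonneg_right (by linarith) hp.le
    have b2 : 0 < ρ * (P0 * Dv) := mul_pos hρ hPD
    linarith
  have a4 : 12 * η * p / ρ ≤ 36 * η * (P0 * Dv) := by
    rw [div_le_iff₀ hρ]
    have := mul_le_mul_of_nonneg_left a3 hη
    linarith
  have a5 : (1 - 36 * η) * (P0 * Dv) ≤ kk := by linarith
  have hkk : 0 < kk := by
    have b1 : 16 / 25 * (P0 * Dv) ≤ (1 - 36 * η) * (P0 * Dv) :=
      mul_le_mul_of_nonneg_right (by linarith) hPD.le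
    linarith
  refine ⟨hkk, ?_⟩
  rw [div_le_iff₀ hkk]
  have hwD : 0 < w / Dv := div_pos hw hDv
  have b3 : (1 - 36 * η) * (P0 * w) ≤ w / Dv * kk := by
    have b4 := mul_le_mul_of_nonneg_left a5 hwD.le
    have b5 : w / Dv * ((1 - 36 * η) * (P0 * Dv)) = (1 - 36 * η) * (P0 * w) := by
      field_simp
    linarith
  have b6 : (1 - 36 * η) * ((1 - 8 * η) * p) ≤ (1 - 36 * η) * (P0 * w) :=
    mul_le_mul_of_nonneg_left a1 (by linarith)
  have b7 : (1 - 44 * η) * p ≤ w / Dv * kk := by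
    have : 0 ≤ η * η * p := by positivity
    linarith
  have b8 : (1 + 100 * η) * ((1 - 44 * η) * p) ≤ (1 + 100 * η) * (w / Dv * kk) :=
    mul_le_mul_of_nonneg_left b7 (by linarith)
  have b9 : 0 ≤ η * p * (56 - 4400 * η) := by
    apply mul_nonneg (by positivity)
    linarith
  linarith

theorem r14_boot (aL aR tL tR e δ : ℝ) (he : 0 < e) (he2 : e ≤ 1 / 10 ^ 5) (hδ : 0 ≤ δ)
    (hδ2 : δ ≤ 1 / 100) (h1 : aL + aR ≤ 2 * (1 + δ) * (1 + 100 * e)) (hL0 : 0 < aL)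
    (hR0 : 0 < aR) (hR : aR ≤ 7 / 5)
    (tL0 : 1 - 6 * e ≤ tL) (tR0 : 1 - 6 * e ≤ tR)
    (h4 : 1 ≤ e + (1 + 98 * e) / 2 * (aL / tL + aR / tR)) : tL ≤ 1 + 4 * δ + 820 * e := by
  have tLp : 0 < tL := by norm_num at he2; linarith
  have tRp : 0 < tR := by norm_num at he2; linarith
  obtain ⟨a, ha⟩ : ∃ a, a = aL / tL := ⟨_, rfl⟩
  obtain ⟨b, hb⟩ : ∃ b, b = aR / tR := ⟨_, rfl⟩
  rw [← ha, ← hb] at h4
  have ea : a * tL = aL := by rw [ha]; field_simp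
  have eb : b * tR = aR := by rw [hb]; field_simp
  have a0 : 0 < a := by rw [ha]; positivity
  have b0 : 0 < b := by rw [hb]; positivity
  norm_num at he2
  have h5 : 2 - 200 * e ≤ a + b := by
    by_contra hcon
    push Not at hcon
    have : (1 + 98 * e) * (a + b) < (1 + 98 * e) * (2 - 200 * e) :=
      mul_lt_mul_of_pos_left hcon (by linarith)
    nlinarith
  have h6 : b ≤ 141 / 100 := by
    have : b * (9999 / 10000) ≤ b * tR := mul_le_mul_of_nonneg_left (by linarith) b0.le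
    linarith
  have h7 : 11 / 20 ≤ a := by linarith
  have h8 : a * (tL - 1) ≤ 2 * δ + 411 * e := by
    have b1 : b * (-(6 * e)) ≤ b * (tR - 1) := mul_le_mul_of_nonneg_left (by linarith) b0.le
    have b2 : b * (6 * e) ≤ 141 / 100 * (6 * e) := mul_le_mul_of_nonneg_right h6 (by linarith)
    have b3 : δ * e ≤ 1 / 100 * e := mul_le_mul_of_nonneg_right hδ2 he.le
    nlinarith
  by_contra hcon
  push Not at hcon
  have h9 : 11 / 20 * (4 * δ + 820 * e) ≤ a * (tL - 1) :=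
    mul_le_mul h7 (by linarith) (by positivity) a0.le
  linarith

/-- the estimates for one gap -/
theorem r14_one (K4 : ℝ) (hK4 : 1 ≤ K4) {ε Hm Hp : ℝ} {C : Set ℝ} {cd : CD Hm Hp C}
    {x ρ D P0 c : ℝ} {V0 : Gap cd} (hε0 : 0 < ε) (hε1 : ε ≤ 1 / 10 ^ 5) (hρ : 0 < ρ)
    (hD : 7 / 5 * ρ < D) (law : LawI cd ε x ρ D V0 P0 c)
    (s1 : ε ^ (59 / 100 : ℝ) ≤ 1 / 100)
    (s2 : 6 * K4 * ε ^ (6 / 5 : ℝ) + ε ^ (116 / 100 : ℝ) ≤ ε)
    (V : Gap cd) (H4 : |V.c - x| ≤ 3 / 5 * ρ → 3 * ε ^ 2 * ρ ≤ V.s →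
      V.s ≤ ε ^ (59 / 100 : ℝ) * ρ →
      nn x ρ V ≤ K4 * ε ^ (6 / 5 : ℝ) * (1 + ε * ρ / V.s) * Yf cd x ρ)
    (hc : |V.c - x| ≤ 51 / 100 * ρ) (hs : V.s ≤ ε ^ (59 / 100 : ℝ) * ρ)
    (hs2 : (1 - 6 * ε) * (ε * ρ) ≤ V.s) :
    nn x ρ V ≤ 3 * K4 * ε ^ (6 / 5 : ℝ) * Yf cd x ρ ∧
    |V.N - V0.N - P0 * (Real.sqrt ((V.c - V0.c) ^ 2 - (V0.s / 2) ^ 2) * (1 + c * (V.c - x)))| ≤
      ε * Yf cd x ρ ∧
    P0 * ((V.c - V0.c) / Real.sqrt ((V.c - V0.c) ^ 2 - (V0.s / 2) ^ 2) * (1 + c * (V.c - x)) +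
      c * Real.sqrt ((V.c - V0.c) ^ 2 - (V0.s / 2) ^ 2)) - 3 * ε * Yf cd x ρ / ρ ≤ V.kk := by
  norm_num at hε1
  have hY : 0 < Yf cd x ρ := cd.im_pos _ (by simpa using hρ)
  have hερ : 0 < ε * ρ := mul_pos hε0 hρ
  have hs0 : ε * ρ / 2 ≤ V.s := by
    have : 1 / 2 * (ε * ρ) ≤ (1 - 6 * ε) * (ε * ρ) :=
      mul_le_mul_of_nonneg_right (by linarith) hερ.le
    linarith
  have hs3 : 0 < V.s := by linarith
  have hsρ : V.s ≤ ρ / 100 := by
    have := mul_le_mul_of_nonneg_right s1 hρ.le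
    linarith
  have g1 : 3 * ε ^ 2 * ρ ≤ V.s := by
    have : ε * (ε * ρ) ≤ 1 / 100000 * (ε * ρ) := mul_le_mul_of_nonneg_right hε1 hερ.le
    have e : 3 * ε ^ 2 * ρ = 3 * (ε * (ε * ρ)) := by ring
    rw [e]
    linarith
  have e65 : 0 < ε ^ (6 / 5 : ℝ) := Real.rpow_pos_of_pos hε0 _
  have e116 : 0 < ε ^ (116 / 100 : ℝ) := Real.rpow_pos_of_pos hε0 _
  have hn := H4 (by linarith) g1 hs
  have hr : ε * ρ / V.s ≤ 2 := by
    rw [div_le_iff₀ hs3]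
    linarith
  have hn2 : nn x ρ V ≤ 3 * K4 * ε ^ (6 / 5 : ℝ) * Yf cd x ρ := by
    refine hn.trans (mul_le_mul_of_nonneg_right ?_ hY.le)
    have : K4 * ε ^ (6 / 5 : ℝ) * (1 + ε * ρ / V.s) ≤ K4 * ε ^ (6 / 5 : ℝ) * 3 :=
      mul_le_mul_of_nonneg_left (by linarith) (by positivity)
    linarith
  have hn0 : 0 ≤ nn x ρ V :=
    setIntegral_nonneg measurableSet_Icc
      (fun t _ => div_nonneg (cd.im_nonneg t) (abs_nonneg _))
  obtain ⟨c1, c2⟩ := abs_le.mp hc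
  have hVa : V.a = V.c - V.s / 2 := by unfold Gap.c Gap.s; ring
  have hVb : V.b = V.c + V.s / 2 := by unfold Gap.c Gap.s; ring
  obtain ⟨l1, l2⟩ := law.law V (by rw [hVa]; linarith) (by rw [hVb]; linarith) hs
  have hUU : UU V0 x P0 (P0 * c) V.c =
      P0 * (Real.sqrt ((V.c - V0.c) ^ 2 - (V0.s / 2) ^ 2) * (1 + c * (V.c - x))) := by
    unfold UU; ring
  have hUD : UD V0 x P0 (P0 * c) V.c =
      P0 * ((V.c - V0.c) / Real.sqrt ((V.c - V0.c) ^ 2 - (V0.s / 2) ^ 2) * (1 + c * (V.c - x)) +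
      c * Real.sqrt ((V.c - V0.c) ^ 2 - (V0.s / 2) ^ 2)) := by
    unfold UD; ring
  rw [hUU] at l1 l2
  rw [hUD] at l2
  have hq : (D + 3 / 5 * ρ) / (D - ρ) / Real.pi ≤ 2 := by
    have hDρ : 0 < D - ρ := by linarith
    have q1 : (D + 3 / 5 * ρ) / (D - ρ) ≤ 5 := by
      rw [div_le_iff₀ hDρ]
      linarith
    rw [div_le_iff₀ Real.pi_pos]
    have := Real.pi_gt_three
    linarith
  have hE : |V.N - V0.N - P0 * (Real.sqrt ((V.c - V0.c) ^ 2 - (V0.s / 2) ^ 2) *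
      (1 + c * (V.c - x)))| ≤ ε * Yf cd x ρ := by
    refine l1.trans ?_
    have q2 : (D + 3 / 5 * ρ) / (D - ρ) / Real.pi * nn x ρ V ≤ 2 * nn x ρ V :=
      mul_le_mul_of_nonneg_right hq hn0
    have q3 := mul_le_mul_of_nonneg_right s2 hY.le
    linarith
  refine ⟨hn2, hE, ?_⟩
  have q4 : ε ^ (116 / 100 : ℝ) * Yf cd x ρ / ρ ≤ ε * Yf cd x ρ / ρ := by
    apply div_le_div_of_nonneg_right _ hρ.le
    apply mul_le_mul_of_nonneg_right _ hY.le
    have : 0 < 6 * K4 * ε ^ (6 / 5 : ℝ) := by positivity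
    linarith
  have q5 : 5 / 4 * |V.N - V0.N - P0 * (Real.sqrt ((V.c - V0.c) ^ 2 - (V0.s / 2) ^ 2) *
      (1 + c * (V.c - x)))| / ρ ≤ 5 / 4 * (ε * Yf cd x ρ) / ρ := by
    apply div_le_div_of_nonneg_right _ hρ.le
    linarith
  have q6 : 0 < ε * Yf cd x ρ / ρ := by positivity
  have q7 : 5 / 4 * (ε * Yf cd x ρ) / ρ = 5 / 4 * (ε * Yf cd x ρ / ρ) := by ring
  have q8 : 3 * ε * Yf cd x ρ / ρ = 3 * (ε * Yf cd x ρ / ρ) := by ring
  rw [q7] at q5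
  rw [q8]
  linarith

theorem r14_mu (p mu kk s ε ρ : ℝ) (hp : 0 < p) (hkk : 0 < kk) (hs : 0 < s) (hε : 0 < ε)
    (hρ : 0 < ρ) (h : mu * kk * s ≤ ε / 2 * (1 + 98 * ε)) :
    p * mu ≤ (1 + 98 * ε) / 2 * ((p / kk / ρ) / (s / (ε * ρ))) := by
  have h1 : 0 < p / (kk * s) := by positivity
  have h2 := mul_le_mul_of_nonneg_right h h1.le
  have e1 : mu * kk * s * (p / (kk * s)) = p * mu := by field_simp
  have e2 : (p / kk / ρ) / (s / (ε * ρ)) = ε * (p / (kk * s)) := by field_simp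
  rw [e1] at h2
  rw [e2]
  linarith

/-- the powers -/
theorem r14_pw (K4 ε : ℝ) (hK4 : 1 ≤ K4) (hε0 : 0 < ε) (j3 : ε ^ (1 / 5 : ℝ) ≤ 1 / (12 * K4))
    (j4 : ε ^ (16 / 100 : ℝ) ≤ 1 / 2) :
    6 * K4 * ε ^ (6 / 5 : ℝ) + ε ^ (116 / 100 : ℝ) ≤ ε := by
  have h1 : ε ^ (6 / 5 : ℝ) = ε * ε ^ (1 / 5 : ℝ) := by
    rw [show (6 / 5 : ℝ) = 1 + 1 / 5 by norm_num, Real.rpow_add hε0, Real.rpow_one]
  have h2 : ε ^ (116 / 100 : ℝ) = ε * ε ^ (16 / 100 : ℝ) := by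
    rw [show (116 / 100 : ℝ) = 1 + 16 / 100 by norm_num, Real.rpow_add hε0, Real.rpow_one]
  rw [h1, h2]
  have h3 : 6 * K4 * (ε * ε ^ (1 / 5 : ℝ)) ≤ ε / 2 := by
    have := mul_le_mul_of_nonneg_left j3 (show 0 ≤ 6 * K4 * ε by positivity)
    have e : 6 * K4 * ε * (1 / (12 * K4)) = ε / 2 := by field_simp; norm_num
    linarith
  have h4 := mul_le_mul_of_nonneg_left j4 hε0.le
  linarith

end Pool.Agent.Helper36.CV
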